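import Mathlib

set_option autoImplicit false

open Set Metric Filter Topology

namespace Pool.Agent.BarkerLarman

/-- Euclidean space -/
abbrev E (n : ℕ) := EuclideanSpace ℝ (Fin n)

/-- support function of `K - v` -/
noncomputable def g {n : ℕ} (K : Set (E n)) (v : E n) (f : E n →L[ℝ] ℝ) : ℝ :=
  sSup ((fun x => f (x - v)) '' K)

/-- the functionals whose supporting hyperplane of `K` passes through `v` -/
def N0 {n : ℕ} (K : Set (E n)) (v : E n) : Set (E n →L[ℝ] ℝ) := {f | f ≠ 0 ∧ g K v f = 0}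

/-- the section of `K1` by the supporting hyperplane of `K` with normal `f` -/
def Sec {n : ℕ} (K K1 : Set (E n)) (v : E n) (f : E n →L[ℝ] ℝ) : Set (E n) :=
  {x | x ∈ K1 ∧ f (x - v) = g K v f}

/-- `p` is a centre of symmetry of the section -/
def IsCen {n : ℕ} (K K1 : Set (E n)) (v : E n) (f : E n →L[ℝ] ℝ) (p : E n) : Prop :=
  ∀ x ∈ Sec K K1 v f, (2 : ℝ) • p - x ∈ Sec K K1 v f

/-- `K`, `K1` convex bodies, `K ⊆ int K1`, `K1` with finitely many extreme points, `v` one of them -/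
structure Dat (n : ℕ) (K K1 : Set (E n)) (v : E n) : Prop where
  hn : 3 ≤ n
  Kconv : Convex ℝ K
  Kcomp : IsCompact K
  Kint : (interior K).Nonempty
  K1conv : Convex ℝ K1
  K1comp : IsCompact K1
  K1int : (interior K1).Nonempty
  fin : (K1.extremePoints ℝ).Finite
  sub : K ⊆ interior K1
  hv : v ∈ K1.extremePoints ℝ

/-- `[v, q]` is an edge of `K1` -/
def Edge {n : ℕ} (K1 : Set (E n)) (v q : E n) : Prop :=
  q ∈ K1.extremePoints ℝ ∧ q ≠ v ∧ IsExtreme ℝ K1 (segment ℝ v q)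

lemma Dat.Kne {n : ℕ} {K K1 : Set (E n)} {v : E n} (h : Dat n K K1 v) : K.Nonempty :=
  h.Kint.mono interior_subset

lemma bdd {n : ℕ} {K : Set (E n)} (hK : IsCompact K) (v : E n) (f : E n →L[ℝ] ℝ) :
    BddAbove ((fun x => f (x - v)) '' K) :=
  (hK.image (by fun_prop)).bddAbove

lemma le_g {n : ℕ} {K : Set (E n)} (hK : IsCompact K) (v : E n) (f : E n →L[ℝ] ℝ) {x : E n}
    (hx : x ∈ K) : f (x - v) ≤ g K v f :=
  le_csSup (bdd hK v f) ⟨x, hx, rfl⟩

lemma g_le {n : ℕ} {K : Set (E n)} (hne : K.Nonempty) (v : E n) (f : E n →L[ℝ] ℝ) {c : ℝ}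
    (h : ∀ x ∈ K, f (x - v) ≤ c) : g K v f ≤ c := by
  refine csSup_le (hne.image _) ?_
  rintro _ ⟨x, hx, rfl⟩
  exact h x hx

lemma g_attain {n : ℕ} {K : Set (E n)} (hK : IsCompact K) (hne : K.Nonempty) (v : E n)
    (f : E n →L[ℝ] ℝ) : ∃ x ∈ K, f (x - v) = g K v f := by
  obtain ⟨x, hx, hmax⟩ := hK.exists_isMaxOn hne (f := fun x => f (x - v)) (by fun_prop)
  exact ⟨x, hx, le_antisymm (le_g hK v f hx) (g_le hne v f fun y hy => hmax hy)⟩

lemma g_add {n : ℕ} {K : Set (E n)} (hK : IsCompact K) (hne : K.Nonempty) (v : E n)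
    (f1 f2 : E n →L[ℝ] ℝ) : g K v (f1 + f2) ≤ g K v f1 + g K v f2 := by
  refine g_le hne v _ fun x hx => ?_
  rw [ContinuousLinearMap.add_apply]
  exact add_le_add (le_g hK v f1 hx) (le_g hK v f2 hx)

lemma g_smul {n : ℕ} {K : Set (E n)} (hK : IsCompact K) (hne : K.Nonempty) (v : E n)
    (f : E n →L[ℝ] ℝ) {t : ℝ} (ht : 0 ≤ t) : g K v (t • f) = t * g K v f := by
  obtain ⟨x, hx, hxe⟩ := g_attain hK hne v f
  refine le_antisymm (g_le hne v _ fun y hy => ?_) ?_
  · rw [ContinuousLinearMap.smul_apply, smul_eq_mul]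
    exact mul_le_mul_of_nonneg_left (le_g hK v f hy) ht
  · rw [← hxe]
    exact le_g hK v (t • f) hx

lemma g_zero {n : ℕ} {K : Set (E n)} (hK : IsCompact K) (hne : K.Nonempty) (v : E n) :
    g K v 0 = 0 := by
  have := g_smul hK hne v 0 (le_refl (0 : ℝ))
  simpa using this

/-- `g f ≤ R ‖f‖` for some `R > 0` -/
lemma g_bound {n : ℕ} {K : Set (E n)} (hK : IsCompact K) (hne : K.Nonempty) (v : E n) :
    ∃ R : ℝ, 0 < R ∧ ∀ f : E n →L[ℝ] ℝ, g K v f ≤ R * ‖f‖ := by
  obtain ⟨R, hR⟩ := (hK.image (f := fun x => ‖x - v‖) (by fun_prop)).bddAbove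
  refine ⟨max R 1, lt_of_lt_of_le one_pos (le_max_right _ _), fun f => g_le hne v f fun x hx => ?_⟩
  have h1 : f (x - v) ≤ ‖f‖ * ‖x - v‖ := (le_abs_self _).trans (f.le_opNorm _)
  have h2 : ‖x - v‖ ≤ max R 1 := (hR ⟨x, hx, rfl⟩).trans (le_max_left _ _)
  nlinarith [norm_nonneg f]

lemma g_lip {n : ℕ} {K : Set (E n)} (hK : IsCompact K) (hne : K.Nonempty) (v : E n) :
    ∃ R : ℝ, 0 < R ∧ ∀ f1 f2 : E n →L[ℝ] ℝ, g K v f1 ≤ g K v f2 + R * ‖f1 - f2‖ := by
  obtain ⟨R, hR0, hR⟩ := g_bound hK hne v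
  refine ⟨R, hR0, fun f1 f2 => ?_⟩
  have h1 := g_add hK hne v f2 (f1 - f2)
  rw [add_sub_cancel] at h1
  linarith [hR (f1 - f2)]

lemma g_cont {n : ℕ} {K : Set (E n)} (hK : IsCompact K) (hne : K.Nonempty) (v : E n) :
    Continuous (g K v) := by
  obtain ⟨R, hR0, hR⟩ := g_lip hK hne v
  refine LipschitzWith.continuous (K := ⟨R, hR0.le⟩) ?_
  refine LipschitzWith.of_dist_le_mul fun f1 f2 => ?_
  rw [Real.dist_eq, dist_eq_norm, abs_le]
  have h1 := hR f1 f2
  have h2 := hR f2 f1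
  rw [norm_sub_rev f2 f1] at h2
  constructor
  · show -(R * ‖f1 - f2‖) ≤ _
    linarith
  · show _ ≤ (R * ‖f1 - f2‖)
    linarith

/-- an extreme point of `K1` is not in the interior -/
lemma Dat.v_notMem_int {n : ℕ} {K K1 : Set (E n)} {v : E n} (h : Dat n K K1 v) :
    ∀ q ∈ K1.extremePoints ℝ, q ∉ interior K1 := by
  intro q hq hqi
  have hn := h.hn
  have : Nonempty (Fin n) := ⟨⟨0, by omega⟩⟩
  have : Nontrivial (E n) := inferInstance
  exact Set.disjoint_left.1 (disjoint_interior_extremePoints K1) hqi hq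

lemma Dat.v_notMem {n : ℕ} {K K1 : Set (E n)} {v : E n} (h : Dat n K K1 v) : v ∉ K :=
  fun hv => h.v_notMem_int v h.hv (h.sub hv)

/-- `v` is strictly separated from `K` -/
lemma Dat.exists_neg {n : ℕ} {K K1 : Set (E n)} {v : E n} (h : Dat n K K1 v) :
    ∃ f1 : E n →L[ℝ] ℝ, g K v f1 < 0 := by
  obtain ⟨f, c, hf1, hf2⟩ := geometric_hahn_banach_closed_point h.Kconv h.Kcomp.isClosed h.v_notMem
  obtain ⟨x, hx, hxe⟩ := g_attain h.Kcomp h.Kne v f
  refine ⟨f, ?_⟩
  rw [← hxe, map_sub]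
  linarith [hf1 x hx]

/-- `e` is a direction of the face of `x` -/
def EDir {n : ℕ} (K1 : Set (E n)) (x e : E n) : Prop :=
  ∃ ε : ℝ, 0 < ε ∧ ∀ s : ℝ, |s| ≤ ε → x + s • e ∈ K1

lemma EDir.smul {n : ℕ} {K1 : Set (E n)} {x e : E n} (h : EDir K1 x e) (r : ℝ) :
    EDir K1 x (r • e) := by
  obtain ⟨ε, hε, h⟩ := h
  refine ⟨ε / (|r| + 1), by positivity, fun s hs => ?_⟩
  rw [smul_smul]
  apply h
  rw [abs_mul]
  have h1 : 0 < |r| + 1 := by positivity
  rw [le_div_iff₀ h1] at hs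
  nlinarith [abs_nonneg s, abs_nonneg r]

lemma EDir.add {n : ℕ} {K1 : Set (E n)} (hconv : Convex ℝ K1) {x e e' : E n}
    (h : EDir K1 x e) (h' : EDir K1 x e') : EDir K1 x (e + e') := by
  obtain ⟨ε, hε, h⟩ := h
  obtain ⟨ε', hε', h'⟩ := h'
  refine ⟨min ε ε' / 2, by positivity, fun s hs => ?_⟩
  have h1 : |2 * s| ≤ min ε ε' := by
    rw [abs_mul, abs_two]
    linarith
  have h2 := h (2 * s) (h1.trans (min_le_left _ _))
  have h3 := h' (2 * s) (h1.trans (min_le_right _ _))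
  have h4 := hconv h2 h3 (a := 1 / 2) (b := 1 / 2) (by norm_num) (by norm_num) (by norm_num)
  convert h4 using 1
  module

lemma EDir.of_seg {n : ℕ} {K1 : Set (E n)} (hconv : Convex ℝ K1) {x y z : E n}
    (hy : y ∈ K1) (hz : z ∈ K1) (hx : x ∈ openSegment ℝ y z) : EDir K1 x (z - y) := by
  obtain ⟨a, b, ha, hb, hab, rfl⟩ := hx
  refine ⟨min a b, by positivity, fun s hs => ?_⟩
  have h1 := (abs_le.1 hs)
  have h2 : min a b ≤ a := min_le_left _ _
  have h3 : min a b ≤ b := min_le_right _ _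
  have h4 := hconv hy hz (a := a - s) (b := b + s) (by linarith) (by linarith) (by linarith)
  convert h4 using 1
  module

lemma EDir.trans {n : ℕ} {K1 : Set (E n)} (hconv : Convex ℝ K1) {x w e' e : E n}
    (h : EDir K1 w e) (he' : e' ∈ K1) {s : ℝ} (hs0 : 0 ≤ s) (hs1 : s < 1)
    (hx : x = (1 - s) • w + s • e') : EDir K1 x e := by
  obtain ⟨ε, hε, h⟩ := h
  have hs2 : 0 < 1 - s := by linarith
  refine ⟨(1 - s) * ε, by positivity, fun u hu => ?_⟩
  have h1 : |u / (1 - s)| ≤ ε := by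
    rw [abs_div, abs_of_pos hs2, div_le_iff₀ hs2]
    linarith
  have h2 := h _ h1
  have h4 := hconv h2 he' (a := 1 - s) (b := s) hs2.le hs0 (by ring)
  convert h4 using 1
  rw [hx, smul_add, smul_smul, mul_div_cancel₀ _ hs2.ne']
  module

lemma EDir.ker {n : ℕ} {K1 : Set (E n)} {f : E n →L[ℝ] ℝ} {c : ℝ} {x : E n}
    (hx : x ∈ {y | y ∈ K1 ∧ f y = c}.extremePoints ℝ) {e : E n} (h : EDir K1 x e)
    (hf : f e = 0) : e = 0 := by
  obtain ⟨ε, hε, h⟩ := h
  obtain ⟨hx1, hx2⟩ := hx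
  have h1 : x + ε • e ∈ {y | y ∈ K1 ∧ f y = c} :=
    ⟨h ε (by rw [abs_of_pos hε]), by rw [map_add, map_smul, hf, smul_zero, add_zero]; exact hx1.2⟩
  have h2 : x + (-ε) • e ∈ {y | y ∈ K1 ∧ f y = c} :=
    ⟨h (-ε) (by rw [abs_neg, abs_of_pos hε]),
      by rw [map_add, map_smul, hf, smul_zero, add_zero]; exact hx1.2⟩
  have h3 : x ∈ openSegment ℝ (x + ε • e) (x + (-ε) • e) :=
    ⟨1 / 2, 1 / 2, by norm_num, by norm_num, by norm_num, by module⟩
  have h4 := hx2 h1 h2 h3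
  have h5 : ε • e = 0 := by simpa using h4
  exact (smul_eq_zero.1 h5).resolve_left hε.ne'

lemma EDir.mul {n : ℕ} {K1 : Set (E n)} (hconv : Convex ℝ K1) {f : E n →L[ℝ] ℝ} {c : ℝ} {x : E n}
    (hx : x ∈ {y | y ∈ K1 ∧ f y = c}.extremePoints ℝ) {d : E n} (hd : EDir K1 x d)
    (hfd : f d ≠ 0) {e : E n} (h : EDir K1 x e) : ∃ r : ℝ, e = r • d := by
  have h1 := EDir.add hconv h (hd.smul (-(f e / f d)))
  have h2 := EDir.ker hx h1 (by
    rw [map_add, map_smul, smul_eq_mul]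
    field_simp
    ring)
  refine ⟨f e / f d, ?_⟩
  have h3 : e + -(f e / f d) • d = 0 := h2
  rw [neg_smul] at h3
  exact eq_of_sub_eq_zero (by rw [sub_eq_add_neg]; exact h3)

theorem edge_lemma {n : ℕ} (K1 : Set (E n)) (hconv : Convex ℝ K1) (hcomp : IsCompact K1)
    (f : E n →L[ℝ] ℝ) (c : ℝ) (x : E n) (hx : x ∈ {y | y ∈ K1 ∧ f y = c}.extremePoints ℝ)
    (hx' : x ∉ K1.extremePoints ℝ) :
    ∃ a b : E n, a ∈ K1.extremePoints ℝ ∧ b ∈ K1.extremePoints ℝ ∧ a ≠ b ∧
      x ∈ openSegment ℝ a b ∧ IsExtreme ℝ K1 (segment ℝ a b) := by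
  classical
  have hxK : x ∈ K1 := hx.1.1
  -- the direction
  obtain ⟨d, hd0, hd⟩ : ∃ d : E n, d ≠ 0 ∧ EDir K1 x d := by
    by_contra hcon
    push Not at hcon
    apply hx'
    refine ⟨hxK, fun y hy z hz hxyz => ?_⟩
    have h1 := EDir.of_seg hconv hy hz hxyz
    have h2 : z - y = 0 := by
      by_contra h3
      exact hcon _ h3 h1
    have h3 : z = y := sub_eq_zero.1 h2
    rw [h3, openSegment_same] at hxyz
    exact (Set.mem_singleton_iff.1 hxyz).symm
  have hfd : f d ≠ 0 := fun h => hd0 (EDir.ker hx hd h)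
  set L : Set ℝ := {t | x + t • d ∈ K1} with hL
  have hLcl : IsClosed L := hcomp.isClosed.preimage (by fun_prop)
  have hLc : IsCompact L := by
    refine IsCompact.of_isClosed_subset (hcomp.image (f := fun p => (f p - f x) / f d)
      (by fun_prop)) hLcl ?_
    intro t ht
    refine ⟨x + t • d, ht, ?_⟩
    show (f (x + t • d) - f x) / f d = t
    rw [map_add, map_smul, smul_eq_mul]
    field_simp
    ring
  have h0L : (0 : ℝ) ∈ L := by
    show x + (0 : ℝ) • d ∈ K1
    rw [zero_smul, add_zero]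
    exact hxK
  obtain ⟨t1, ht1, ht1m⟩ := hLc.exists_isGreatest ⟨0, h0L⟩
  obtain ⟨t0, ht0, ht0m⟩ := hLc.exists_isLeast ⟨0, h0L⟩
  obtain ⟨ε, hε, hεd⟩ := id hd
  have ht1p : 0 < t1 := lt_of_lt_of_le hε (ht1m (hεd ε (by rw [abs_of_pos hε])))
  have ht0n : t0 < 0 := lt_of_le_of_lt (ht0m (hεd (-ε) (by rw [abs_neg, abs_of_pos hε])))
    (by linarith)
  have hinj : ∀ s t : ℝ, x + s • d = x + t • d → s = t := by
    intro s t h
    have h1 : s • d = t • d := add_left_cancel h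
    have h2 : (s - t) • d = 0 := by rw [sub_smul, h1, sub_self]
    exact sub_eq_zero.1 ((smul_eq_zero.1 h2).resolve_right hd0)
  -- main claim
  have key : ∀ tw : ℝ, tw ∈ L → ∀ y ∈ K1, ∀ z ∈ K1, x + tw • d ∈ openSegment ℝ y z →
      ∃ ty ∈ L, ∃ tz ∈ L, ∃ p q : ℝ, 0 < p ∧ 0 < q ∧ p + q = 1 ∧ y = x + ty • d ∧
        z = x + tz • d ∧ tw = p * ty + q * tz := by
    intro tw htw y hy z hz hseg
    have h1 := EDir.of_seg hconv hy hz hseg
    have h2 : EDir K1 x (z - y) := by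
      rcases lt_trichotomy tw 0 with h | h | h
      · refine EDir.trans hconv h1 ht1 (s := (-tw) / (t1 - tw)) ?_ ?_ ?_
        · apply div_nonneg <;> linarith
        · rw [div_lt_one (by linarith)]; linarith
        · have h3 : t1 - tw ≠ 0 := by linarith
          have h4 : (1 - (-tw) / (t1 - tw)) * tw + (-tw) / (t1 - tw) * t1 = 0 := by
            field_simp
            ring
          have h5 : (1 - (-tw) / (t1 - tw)) • (x + tw • d) + ((-tw) / (t1 - tw)) • (x + t1 • d)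
              = x + ((1 - (-tw) / (t1 - tw)) * tw + (-tw) / (t1 - tw) * t1) • d := by
            module
          rw [h5, h4, zero_smul, add_zero]
      · rw [h, zero_smul, add_zero] at h1
        exact h1
      · refine EDir.trans hconv h1 ht0 (s := tw / (tw - t0)) ?_ ?_ ?_
        · apply div_nonneg <;> linarith
        · rw [div_lt_one (by linarith)]; linarith
        · have h3 : tw - t0 ≠ 0 := by linarith
          have h4 : (1 - tw / (tw - t0)) * tw + tw / (tw - t0) * t0 = 0 := by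
            field_simp
            ring
          have h5 : (1 - tw / (tw - t0)) • (x + tw • d) + (tw / (tw - t0)) • (x + t0 • d)
              = x + ((1 - tw / (tw - t0)) * tw + tw / (tw - t0) * t0) • d := by
            module
          rw [h5, h4, zero_smul, add_zero]
    obtain ⟨r, hr⟩ := EDir.mul hconv hx hd hfd h2
    obtain ⟨p, q, hp, hq, hpq, hw⟩ := hseg
    have hz2 : z = y + r • d := by rw [← hr]; abel
    have hy2 : y = x + (tw - q * r) • d := by
      have h3 : x + tw • d = y + (q * r) • d := by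
        rw [← hw, hz2, smul_add, smul_smul, ← add_assoc, ← add_smul, hpq, one_smul]
      rw [sub_smul, add_sub, h3, add_sub_cancel_right]
    have hz3 : z = x + (tw - q * r + r) • d := by
      rw [hz2, add_smul _ r, ← add_assoc, ← hy2]
    refine ⟨tw - q * r, ?_, tw - q * r + r, ?_, p, q, hp, hq, hpq, hy2, hz3, ?_⟩
    · show x + (tw - q * r) • d ∈ K1
      rw [← hy2]; exact hy
    · show x + (tw - q * r + r) • d ∈ K1
      rw [← hz3]; exact hz
    · have : p = 1 - q := by linarith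
      rw [this]; ring
  have hab : x + t0 • d ≠ x + t1 • d := fun h => by
    have := hinj _ _ h
    linarith
  refine ⟨x + t0 • d, x + t1 • d, ⟨ht0, ?_⟩, ⟨ht1, ?_⟩, hab, ?_, ?_, ?_⟩
  · intro y hy z hz hseg
    obtain ⟨ty, hty, tz, htz, p, q, hp, hq, hpq, hy2, hz2, htw⟩ := key t0 ht0 y hy z hz hseg
    have h1 := ht0m hty
    have h2 := ht0m htz
    have h3 : ty = t0 := by nlinarith
    rw [hy2, h3]
  · intro y hy z hz hseg
    obtain ⟨ty, hty, tz, htz, p, q, hp, hq, hpq, hy2, hz2, htw⟩ := key t1 ht1 y hy z hz hseg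
    have h1 := ht1m hty
    have h2 := ht1m htz
    have h3 : ty = t1 := by nlinarith
    rw [hy2, h3]
  · refine ⟨t1 / (t1 - t0), -t0 / (t1 - t0), by apply div_pos <;> linarith,
      by apply div_pos <;> linarith, ?_, ?_⟩
    · have : t1 - t0 ≠ 0 := by linarith
      field_simp
      ring
    · have h3 : t1 - t0 ≠ 0 := by linarith
      have h4 : (t1 / (t1 - t0)) * t0 + -t0 / (t1 - t0) * t1 = 0 := by
        field_simp
        ring
      have h6 : (t1 / (t1 - t0)) + -t0 / (t1 - t0) = 1 := by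
        field_simp
        ring
      have h5 : (t1 / (t1 - t0)) • (x + t0 • d) + (-t0 / (t1 - t0)) • (x + t1 • d)
          = ((t1 / (t1 - t0)) + -t0 / (t1 - t0)) • x
            + ((t1 / (t1 - t0)) * t0 + -t0 / (t1 - t0) * t1) • d := by
        module
      rw [h5, h4, h6, zero_smul, add_zero, one_smul]
  · exact hconv.segment_subset ht0 ht1
  · intro y hy z hz w hw hseg
    have hcv : ∀ t ∈ L, x + t • d ∈ segment ℝ (x + t0 • d) (x + t1 • d) := by
      intro t ht
      have h1 := ht0m ht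
      have h2 := ht1m ht
      refine ⟨(t1 - t) / (t1 - t0), (t - t0) / (t1 - t0), by apply div_nonneg <;> linarith,
        by apply div_nonneg <;> linarith, ?_, ?_⟩
      · have : t1 - t0 ≠ 0 := by linarith
        field_simp
        ring
      · have h3 : t1 - t0 ≠ 0 := by linarith
        have h4 : ((t1 - t) / (t1 - t0)) * t0 + (t - t0) / (t1 - t0) * t1 = t := by
          field_simp
          ring
        have h6 : ((t1 - t) / (t1 - t0)) + (t - t0) / (t1 - t0) = 1 := by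
          field_simp
          ring
        have h5 : ((t1 - t) / (t1 - t0)) • (x + t0 • d) + ((t - t0) / (t1 - t0)) • (x + t1 • d)
            = (((t1 - t) / (t1 - t0)) + (t - t0) / (t1 - t0)) • x
              + (((t1 - t) / (t1 - t0)) * t0 + (t - t0) / (t1 - t0) * t1) • d := by
          module
        rw [h5, h4, h6, one_smul]
    obtain ⟨p, q, hp, hq, hpq, hw2⟩ := hw
    have hw3 : w = x + (p * t0 + q * t1) • d := by
      rw [← hw2]
      have h5 : p • (x + t0 • d) + q • (x + t1 • d) = (p + q) • x + (p * t0 + q * t1) • d := by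
        module
      rw [h5, hpq, one_smul]
    have hwK : w ∈ K1 := hconv.segment_subset ht0 ht1 ⟨p, q, hp, hq, hpq, hw2⟩
    rw [hw3] at hwK hseg
    obtain ⟨ty, hty, tz, htz, p', q', hp', hq', hpq', hy2, hz2, htw⟩ :=
      key _ hwK y hy z hz hseg
    rw [hy2]
    exact hcv ty hty

theorem three_edges {n : ℕ} {K K1 : Set (E n)} {v : E n} (h : Dat n K K1 v) (a b : E n) :
    ∃ q, Edge K1 v q ∧ q ≠ a ∧ q ≠ b := by
  by_contra hcon
  have hcon' : ∀ q, Edge K1 v q → q = a ∨ q = b := by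
    intro q hq
    by_contra hne
    rw [not_or] at hne
    exact hcon ⟨q, hq, hne.1, hne.2⟩
  set V := K1.extremePoints ℝ with hV
  have hVfin : V.Finite := h.fin
  have hVK : V ⊆ K1 := extremePoints_subset
  have hKV : convexHull ℝ V = K1 := by
    have h1 := closure_convexHull_extremePoints h.K1comp h.K1conv
    rwa [(Set.Finite.isCompact_convexHull ℝ hVfin).isClosed.closure_eq] at h1
  set W := V \ {v} with hW
  have hWfin : W.Finite := hVfin.subset Set.sdiff_subset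
  have hWK : convexHull ℝ W ⊆ K1 := by
    rw [← hKV]
    exact convexHull_mono Set.sdiff_subset
  have hvW : v ∉ convexHull ℝ W := by
    intro hv
    have h1 : v ∈ (convexHull ℝ W).extremePoints ℝ :=
      inter_extremePoints_subset_extremePoints_of_subset hWK ⟨hv, h.hv⟩
    exact (extremePoints_convexHull_subset h1).2 rfl
  obtain ⟨l, u, hlv, hlW⟩ := geometric_hahn_banach_point_closed (convex_convexHull ℝ W)
    (Set.Finite.isCompact_convexHull ℝ hWfin).isClosed hvW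
  have hlW' : ∀ q ∈ W, u < l q := fun q hq => hlW q (subset_convexHull ℝ W hq)
  obtain ⟨y0, hy0⟩ := h.K1int
  have hy0K : y0 ∈ K1 := interior_subset hy0
  have hy0v : y0 ≠ v := by
    intro he
    rw [he] at hy0
    exact h.v_notMem_int v h.hv hy0
  have hins : insert v W = V := by
    rw [hW, Set.insert_sdiff_singleton]
    exact Set.insert_eq_of_mem h.hv
  have hWne : W.Nonempty := by
    by_contra hne
    rw [Set.not_nonempty_iff_eq_empty] at hne
    rw [← hKV, ← hins, hne] at hy0K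
    simp at hy0K
    exact hy0v hy0K
  have hly0 : l v < l y0 := by
    rw [← hKV, ← hins, convexHull_insert hWne] at hy0K
    rw [mem_convexJoin] at hy0K
    obtain ⟨v', hv', w, hw, hseg⟩ := hy0K
    rw [Set.mem_singleton_iff] at hv'
    subst hv'
    rw [segment_eq_image'] at hseg
    obtain ⟨t, ht, hte⟩ := hseg
    simp only at hte
    have ht0 : 0 < t := by
      rcases lt_or_eq_of_le ht.1 with h1 | h1
      · exact h1
      · exfalso
        rw [← h1] at hte
        simp at hte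
        exact hy0v hte.symm
    rw [← hte, map_add, map_smul, map_sub, smul_eq_mul]
    have := hlW w hw
    have h2 : 0 < l w - l v' := by linarith
    nlinarith [mul_pos ht0 h2]
  set c := min u (l y0) with hc
  have hlc : l v < c := lt_min hlv hly0
  have hcu : c ≤ u := min_le_left _ _
  have hcy : c ≤ l y0 := min_le_right _ _
  set G : Set (E n) := {y | y ∈ K1 ∧ l y = c} with hG
  have hGcomp : IsCompact G := by
    have : G = K1 ∩ {y | l y = c} := rfl
    rw [this]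
    exact h.K1comp.inter_right (isClosed_eq l.continuous continuous_const)
  have hGconv : Convex ℝ G := by
    have : G = K1 ∩ {y | l y = c} := rfl
    rw [this]
    refine h.K1conv.inter ?_
    exact convex_hyperplane (l : E n →ₗ[ℝ] ℝ).isLinear c
  set s : ℝ := (c - l v) / (l y0 - l v) with hs
  have hden : 0 < l y0 - l v := by linarith
  have hs0 : 0 < s := div_pos (by linarith) hden
  have hs1 : s ≤ 1 := by
    rw [hs, div_le_one hden]
    linarith
  set z : E n := v + s • (y0 - v) with hz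
  have hzint : z ∈ interior K1 :=
    h.K1conv.add_smul_sub_mem_interior (hVK h.hv) hy0 ⟨hs0, hs1⟩
  have hlz : l z = c := by
    rw [hz, map_add, map_smul, map_sub, smul_eq_mul, hs, div_mul_cancel₀ _ hden.ne']
    ring
  set pt : E n → E n := fun q => v + ((c - l v) / (l q - l v)) • (q - v) with hpt
  have hone : ∀ x q : E n, x ∈ G → q ∈ V → q ≠ v → x ∈ openSegment ℝ v q →
      IsExtreme ℝ K1 (segment ℝ v q) → x = pt a ∨ x = pt b := by
    intro x q hx hq hqv hxs hext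
    have hqe : x = pt q := by
      rw [openSegment_eq_image'] at hxs
      obtain ⟨t, ht, hte⟩ := hxs
      simp only at hte
      have h1 : l x = c := hx.2
      rw [← hte, map_add, map_smul, map_sub, smul_eq_mul] at h1
      have h2 : 0 < l q - l v := by
        have := hlW' q ⟨hq, hqv⟩
        linarith
      have h3 : t = (c - l v) / (l q - l v) := by
        rw [eq_div_iff h2.ne']
        linarith
      rw [← hte, hpt]
      simp only
      rw [← h3]
    rcases hcon' q ⟨hq, hqv, hext⟩ with h1 | h1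
    · left; rw [hqe, h1]
    · right; rw [hqe, h1]
  have hGext : G.extremePoints ℝ ⊆ {pt a, pt b} := by
    intro x hx
    have hxG : x ∈ G := extremePoints_subset hx
    have hxV : x ∉ V := by
      intro hxV
      by_cases hxv : x = v
      · have := hxG.2
        rw [hxv] at this
        linarith
      · have h1 := hlW' x ⟨hxV, hxv⟩
        have h2 := hxG.2
        linarith
    obtain ⟨a', b', ha', hb', hab', hxs, hext⟩ := edge_lemma K1 h.K1conv h.K1comp l c x hx hxV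
    rw [Set.mem_insert_iff, Set.mem_singleton_iff]
    by_cases ha : a' = v
    · subst ha
      exact hone x b' hxG hb' (Ne.symm hab') hxs hext
    · by_cases hb : b' = v
      · subst hb
        rw [openSegment_symm] at hxs
        rw [segment_symm] at hext
        exact hone x a' hxG ha' ha hxs hext
      · exfalso
        have h1 := hlW' a' ⟨ha', ha⟩
        have h2 := hlW' b' ⟨hb', hb⟩
        obtain ⟨α, β, hα, hβ, hαβ, hxe⟩ := hxs
        have h3 : l x = c := hxG.2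
        rw [← hxe, map_add, map_smul, map_smul, smul_eq_mul, smul_eq_mul] at h3
        have h4 : α * u < α * l a' := mul_lt_mul_of_pos_left h1 hα
        have h5 : β * u < β * l b' := mul_lt_mul_of_pos_left h2 hβ
        have h6 : α * u + β * u = u := by rw [← add_mul, hαβ, one_mul]
        linarith
  have hGseg : G ⊆ segment ℝ (pt a) (pt b) := by
    have h1 := closure_convexHull_extremePoints hGcomp hGconv
    rw [← h1]
    have h2 : IsClosed (segment ℝ (pt a) (pt b)) := by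
      rw [← convexHull_pair]
      exact (Set.Finite.isCompact_convexHull ℝ (Set.toFinite {pt a, pt b})).isClosed
    refine closure_minimal ?_ h2
    rw [← convexHull_pair]
    exact convexHull_mono hGext
  have hzG : z ∈ G := ⟨interior_subset hzint, hlz⟩
  -- every vector of the kernel is a multiple
  have hker : LinearMap.ker (l : E n →ₗ[ℝ] ℝ) ≤ Submodule.span ℝ {pt b - pt a} := by
    intro w hw
    have hw0 : l w = 0 := hw
    have hcont : Continuous (fun ε : ℝ => z + ε • w) := by fun_prop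
    have hnear : ∀ᶠ ε in 𝓝 (0 : ℝ), z + ε • w ∈ interior K1 := by
      have : (fun ε : ℝ => z + ε • w) ⁻¹' (interior K1) ∈ 𝓝 (0 : ℝ) := by
        refine (isOpen_interior.preimage hcont).mem_nhds ?_
        show z + (0 : ℝ) • w ∈ interior K1
        rw [zero_smul, add_zero]
        exact hzint
      exact this
    obtain ⟨ρ, hρ, hρi⟩ := Metric.eventually_nhds_iff.1 hnear
    have hεi : z + (ρ / 2) • w ∈ interior K1 := by
      apply hρi
      rw [Real.dist_eq, sub_zero, abs_of_pos (by linarith)]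
      linarith
    have hε0 : ρ / 2 ≠ 0 := by positivity
    have h2G : z + (ρ / 2) • w ∈ G := by
      refine ⟨interior_subset hεi, ?_⟩
      rw [map_add, map_smul, hw0, smul_zero, add_zero, hlz]
    have e1 := hGseg hzG
    have e2 := hGseg h2G
    rw [segment_eq_image'] at e1 e2
    obtain ⟨t1, -, ht1⟩ := e1
    obtain ⟨t2, -, ht2⟩ := e2
    simp only at ht1 ht2
    rw [Submodule.mem_span_singleton]
    refine ⟨(ρ / 2)⁻¹ * (t2 - t1), ?_⟩
    have e3 : (ρ / 2) • w = (t2 - t1) • (pt b - pt a) := by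
      have : (ρ / 2) • w = (pt a + t2 • (pt b - pt a)) - (pt a + t1 • (pt b - pt a)) := by
        rw [ht1, ht2]
        abel
      rw [this, sub_smul]
      abel
    rw [mul_smul, ← e3, smul_smul, inv_mul_cancel₀ hε0, one_smul]
  have hfr : Module.finrank ℝ (LinearMap.ker (l : E n →ₗ[ℝ] ℝ)) ≤ 1 := by
    refine (Submodule.finrank_mono hker).trans ?_
    refine (finrank_span_le_card ({pt b - pt a} : Set (E n))).trans ?_
    simp
  have hrn := LinearMap.finrank_range_add_finrank_ker (l : E n →ₗ[ℝ] ℝ)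
  have hr1 : Module.finrank ℝ (LinearMap.range (l : E n →ₗ[ℝ] ℝ)) ≤ 1 := by
    have := Submodule.finrank_le (LinearMap.range (l : E n →ₗ[ℝ] ℝ))
    simpa using this
  rw [finrank_euclideanSpace_fin] at hrn
  have := h.hn
  omega

theorem edge_neg_disj {n : ℕ} {K K1 : Set (E n)} {v : E n} (h : Dat n K K1 v) (q : E n)
    (hq : Edge K1 v q) (x : E n) (hx : x ∈ K) (t : ℝ) (ht : x = v + t • (q - v)) : False := by
  have hxi : x ∈ interior K1 := h.sub hx
  have hvK : v ∈ K1 := h.hv.1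
  have hqK : q ∈ K1 := hq.1.1
  have hr0 : q - v ≠ 0 := sub_ne_zero.2 hq.2.1
  rcases le_or_gt t 0 with ht0 | ht0
  · have h1 := h.K1conv.add_smul_sub_mem_interior hqK hxi (t := 1 / (1 - t))
      ⟨by apply div_pos one_pos; linarith, by
        rw [div_le_one (by linarith)]; linarith⟩
    have h2 : q + (1 / (1 - t)) • (x - q) = v := by
      have e1 : x - q = (t - 1) • (q - v) := by
        rw [ht, sub_smul, one_smul]
        abel
      rw [e1, smul_smul]
      have e2 : 1 / (1 - t) * (t - 1) = -1 := by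
        have : (1 - t) ≠ 0 := by linarith
        field_simp
        ring
      rw [e2, neg_one_smul]
      abel
    rw [h2] at h1
    exact h.v_notMem_int v h.hv h1
  · obtain ⟨s, hs0, hs1, hst⟩ : ∃ s : ℝ, 0 < s ∧ s < 1 ∧ s < t := by
      refine ⟨min 1 t / 2, ?_, ?_, ?_⟩
      · have := lt_min one_pos ht0
        linarith
      · have := min_le_left 1 t
        linarith
      · have := min_le_right 1 t
        have := lt_min one_pos ht0
        linarith
    have h1 := h.K1conv.add_smul_sub_mem_interior hvK hxi (t := s / t)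
      ⟨by positivity, by rw [div_le_one ht0]; exact hst.le⟩
    have h2 : v + (s / t) • (x - v) = v + s • (q - v) := by
      rw [ht, add_sub_cancel_left, smul_smul, div_mul_cancel₀ _ ht0.ne']
    rw [h2] at h1
    set y := v + s • (q - v) with hy
    have hyseg : y ∈ segment ℝ v q := by
      rw [segment_eq_image']
      exact ⟨s, ⟨hs0.le, hs1.le⟩, rfl⟩
    -- a direction outside the line
    obtain ⟨w0, hw0⟩ : ∃ w0 : E n, w0 ∉ Submodule.span ℝ {q - v} := by
      by_contra hcon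
      push Not at hcon
      have htop : Submodule.span ℝ {q - v} = ⊤ := by
        rw [eq_top_iff]
        intro z _
        exact hcon z
      have hf := finrank_span_singleton (K := ℝ) hr0
      rw [htop, finrank_top, finrank_euclideanSpace, Fintype.card_fin] at hf
      have := h.hn
      omega
    obtain ⟨ε, hε, hball⟩ := Metric.isOpen_iff.1 isOpen_interior y h1
    obtain ⟨δ, hδ0, hδ⟩ : ∃ δ : ℝ, 0 < δ ∧ ‖δ • w0‖ < ε := by
      refine ⟨ε / (2 * (‖w0‖ + 1)), by positivity, ?_⟩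
      rw [norm_smul, Real.norm_eq_abs, abs_of_pos (by positivity), div_mul_eq_mul_div,
        div_lt_iff₀ (by positivity)]
      nlinarith [norm_nonneg w0]
    have hp1 : y + δ • w0 ∈ K1 := by
      apply interior_subset
      apply hball
      rw [mem_ball, dist_eq_norm, add_sub_cancel_left]
      exact hδ
    have hp2 : y - δ • w0 ∈ K1 := by
      apply interior_subset
      apply hball
      rw [mem_ball, dist_eq_norm, sub_sub_cancel_left, norm_neg]
      exact hδ
    have hopen : y ∈ openSegment ℝ (y + δ • w0) (y - δ • w0) := by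
      refine ⟨1 / 2, 1 / 2, by norm_num, by norm_num, by norm_num, ?_⟩
      module
    have hmem : y + δ • w0 ∈ segment ℝ v q := by
      have hE := hq.2.2
      exact hE.2 hp1 hp2 hyseg hopen
    rw [segment_eq_image'] at hmem
    obtain ⟨s', -, hs'⟩ := hmem
    simp only at hs'
    apply hw0
    rw [Submodule.mem_span_singleton]
    refine ⟨δ⁻¹ * (s' - s), ?_⟩
    have e1 : δ • w0 = (s' - s) • (q - v) := by
      have : δ • w0 = (v + s' • (q - v)) - y := by rw [hs']; abel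
      rw [this, hy, sub_smul]
      abel
    rw [mul_smul, ← e1, smul_smul, inv_mul_cancel₀ hδ0.ne', one_smul]

theorem edge_neg {n : ℕ} {K K1 : Set (E n)} {v : E n} (h : Dat n K K1 v) (q : E n)
    (hq : Edge K1 v q) : ∃ f1 : E n →L[ℝ] ℝ, g K v f1 < 0 ∧ f1 (q - v) = 0 := by
  set L : Set (E n) := (fun x => x - v) ⁻¹' (Submodule.span ℝ {q - v} : Set (E n)) with hL
  have hLc : IsClosed L :=
    (Submodule.closed_of_finiteDimensional _).preimage (continuous_id.sub continuous_const)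
  have hLm : ∀ x, x ∈ L ↔ x - v ∈ Submodule.span ℝ {q - v} := fun x => Iff.rfl
  have hLconv : Convex ℝ L := by
    intro x hx y hy a b ha hb hab
    rw [hLm] at hx hy ⊢
    have : a • x + b • y - v = a • (x - v) + b • (y - v) := by
      have e : v = a • v + b • v := by rw [← add_smul, hab, one_smul]
      conv_lhs => rw [e]
      rw [smul_sub, smul_sub]
      abel
    rw [this]
    exact Submodule.add_mem _ (Submodule.smul_mem _ _ hx) (Submodule.smul_mem _ _ hy)
  have hdisj : Disjoint K L := by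
    rw [Set.disjoint_left]
    intro x hx hxL
    rw [hLm, Submodule.mem_span_singleton] at hxL
    obtain ⟨t, ht⟩ := hxL
    exact edge_neg_disj h q hq x hx t (by rw [ht]; abel)
  obtain ⟨f, u, w, hf1, huw, hf2⟩ :=
    geometric_hahn_banach_compact_closed h.Kconv h.Kcomp hLconv hLc hdisj
  have hline : ∀ t : ℝ, w < f v + t * f (q - v) := by
    intro t
    have := hf2 (v + t • (q - v)) (by
      rw [hLm, add_sub_cancel_left]
      exact Submodule.smul_mem _ _ (Submodule.mem_span_singleton_self _))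
    rwa [map_add, map_smul, smul_eq_mul] at this
  have hfr : f (q - v) = 0 := by
    by_contra hne
    have := hline ((w - f v) / f (q - v))
    rw [div_mul_cancel₀ _ hne] at this
    linarith
  have hfv : w < f v := by simpa [hfr] using hline 0
  obtain ⟨x, hx, hxe⟩ := g_attain h.Kcomp h.Kne v f
  refine ⟨f, ?_, hfr⟩
  rw [← hxe, map_sub]
  linarith [hf1 x hx]

theorem dense_single {n : ℕ} {K : Set (E n)} (hK : IsCompact K) (hne : K.Nonempty) (v : E n)
    (r : E n) (hr : r ≠ 0) (f1 : E n →L[ℝ] ℝ) (hf1 : g K v f1 < 0) (hf1r : f1 r = 0)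
    (f : E n →L[ℝ] ℝ) (hf : f ∈ N0 K v) (η : ℝ) (hη : 0 < η) :
    ∃ f' ∈ N0 K v, ‖f' - f‖ < η ∧ f' r ≠ 0 := by
  by_cases hfr : f r = 0
  swap
  · exact ⟨f, hf, by simpa using hη, hfr⟩
  obtain ⟨hf0, hgf⟩ := hf
  have hrn : ‖r‖ ≠ 0 := norm_ne_zero_iff.mpr hr
  obtain ⟨φ, hφ⟩ : ∃ φ : E n →L[ℝ] ℝ, φ r = 1 := by
    refine ⟨(‖r‖ ^ 2)⁻¹ • innerSL ℝ r, ?_⟩
    rw [ContinuousLinearMap.smul_apply, innerSL_apply_apply, real_inner_self_eq_norm_sq, smul_eq_mul,
      inv_mul_cancel₀ (pow_ne_zero 2 hrn)]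
  have hgc := g_cont hK hne v
  set τ : ℝ := η / (2 * (‖f1‖ + 1)) with hτ
  have hn1 : 0 ≤ ‖f1‖ := norm_nonneg _
  have hτ0 : 0 < τ := by positivity
  have hτ1 : τ * ‖f1‖ < η / 2 := by
    rw [hτ, div_mul_eq_mul_div, div_lt_div_iff₀ (by positivity) (by norm_num)]
    nlinarith
  have hneg : g K v (f + τ • f1) < 0 := by
    have h1 := g_add hK hne v f (τ • f1)
    rw [g_smul hK hne v f1 hτ0.le, hgf] at h1
    nlinarith
  have hpos : 0 < g K v (f + (-τ) • f1) := by
    have h1 := g_add hK hne v (f + τ • f1) (f + (-τ) • f1)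
    have h2 : (f + τ • f1) + (f + (-τ) • f1) = (2 : ℝ) • f := by
      refine ContinuousLinearMap.ext fun x => ?_
      show (f x + τ * f1 x) + (f x + (-τ) * f1 x) = 2 * f x
      ring
    rw [h2, g_smul hK hne v f (by norm_num : (0:ℝ) ≤ 2), hgf] at h1
    linarith
  have c1 : Continuous fun e : ℝ => g K v (f + e • φ + τ • f1) := hgc.comp (by fun_prop)
  have c2 : Continuous fun e : ℝ => g K v (f + e • φ + (-τ) • f1) := hgc.comp (by fun_prop)
  have c3 : Continuous fun e : ℝ => e * ‖φ‖ := by fun_prop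
  have e1 : ∀ᶠ e in 𝓝 (0:ℝ), g K v (f + e • φ + τ • f1) < 0 :=
    c1.continuousAt.eventually_lt continuousAt_const (by simpa using hneg)
  have e2 : ∀ᶠ e in 𝓝 (0:ℝ), 0 < g K v (f + e • φ + (-τ) • f1) :=
    continuousAt_const.eventually_lt c2.continuousAt (by simpa using hpos)
  have e3 : ∀ᶠ e in 𝓝 (0:ℝ), e * ‖φ‖ < η / 2 :=
    c3.continuousAt.eventually_lt continuousAt_const (by simpa using (half_pos hη))
  obtain ⟨e, ⟨h1, h2, h3⟩, he0⟩ := (((e1.and (e2.and e3)).filter_mono nhdsWithin_le_nhds).and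
    (self_mem_nhdsWithin : Ioi (0:ℝ) ∈ 𝓝[>] (0:ℝ))).exists
  have he0' : 0 < e := he0
  have c4 : Continuous fun t : ℝ => g K v (f + e • φ + t • f1) := hgc.comp (by fun_prop)
  obtain ⟨t, ht, ht0⟩ := intermediate_value_Icc' (by linarith : -τ ≤ τ) c4.continuousOn
    (show (0:ℝ) ∈ Icc (g K v (f + e • φ + τ • f1)) (g K v (f + e • φ + (-τ) • f1)) from
      ⟨h1.le, h2.le⟩)
  have hval : (f + e • φ + t • f1) r = e := by
    simp only [ContinuousLinearMap.add_apply, ContinuousLinearMap.smul_apply, hfr, hφ, hf1r,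
      smul_eq_mul]
    ring
  refine ⟨f + e • φ + t • f1, ⟨?_, ht0⟩, ?_, by rw [hval]; exact he0'.ne'⟩
  · intro h0
    rw [h0] at hval
    simp at hval
    exact he0'.ne hval
  · have h4 : f + e • φ + t • f1 - f = e • φ + t • f1 := by abel
    rw [h4]
    refine lt_of_le_of_lt (norm_add_le _ _) ?_
    rw [norm_smul, norm_smul, Real.norm_eq_abs, Real.norm_eq_abs, abs_of_pos he0']
    have h5 : |t| ≤ τ := abs_le.mpr ht
    have h6 := mul_le_mul_of_nonneg_right h5 hn1
    linarith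

theorem dense_step {n : ℕ} {K K1 : Set (E n)} {v : E n} (h : Dat n K K1 v) (R : Set (E n))
    (hR : R.Finite) (h0 : ∀ r ∈ R, r ≠ 0)
    (hneg : ∀ r ∈ R, ∃ f1 : E n →L[ℝ] ℝ, g K v f1 < 0 ∧ f1 r = 0)
    (f : E n →L[ℝ] ℝ) (hf : f ∈ N0 K v) (ε : ℝ) (hε : 0 < ε) :
    ∃ f' ∈ N0 K v, ‖f' - f‖ < ε ∧ ∀ r ∈ R, f' r ≠ 0 := by
  induction R, hR using Set.Finite.induction_on generalizing ε with
  | empty => exact ⟨f, hf, by simpa using hε, fun r hr => absurd hr (Set.notMem_empty r)⟩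
  | @insert r S hrS hS ih =>
    obtain ⟨f₀, hf₀, hd, hnz⟩ := ih (fun r' hr' => h0 r' (Set.mem_insert_of_mem _ hr'))
      (fun r' hr' => hneg r' (Set.mem_insert_of_mem _ hr')) (ε / 2) (half_pos hε)
    have hop : IsOpen (⋂ r' ∈ S, {f' : E n →L[ℝ] ℝ | f' r' ≠ 0}) := by
      refine hS.isOpen_biInter fun r' _ => ?_
      have hc : Continuous fun f' : E n →L[ℝ] ℝ => f' r' := by fun_prop
      exact isOpen_ne.preimage hc
    have hmem : f₀ ∈ ⋂ r' ∈ S, {f' : E n →L[ℝ] ℝ | f' r' ≠ 0} := by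
      rw [Set.mem_iInter₂]
      exact fun r' hr' => hnz r' hr'
    obtain ⟨δ, hδ, hball⟩ := Metric.isOpen_iff.mp hop f₀ hmem
    obtain ⟨f1, hf1, hf1r⟩ := hneg r (Set.mem_insert _ _)
    obtain ⟨f', hf', hd', hr'⟩ := dense_single h.Kcomp h.Kne v r (h0 r (Set.mem_insert _ _)) f1 hf1
      hf1r f₀ hf₀ (min δ (ε / 2)) (lt_min hδ (half_pos hε))
    refine ⟨f', hf', ?_, ?_⟩
    · have h1 : f' - f = (f' - f₀) + (f₀ - f) := by abel
      rw [h1]
      refine lt_of_le_of_lt (norm_add_le _ _) ?_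
      have h2 := lt_of_lt_of_le hd' (min_le_right _ _)
      linarith
    · intro r'' hr''
      rcases Set.mem_insert_iff.mp hr'' with h1 | h1
      · rw [h1]; exact hr'
      · have h2 : f' ∈ Metric.ball f₀ δ := by
          rw [Metric.mem_ball, dist_eq_norm]
          exact lt_of_lt_of_le hd' (min_le_left _ _)
        have h3 := hball h2
        rw [Set.mem_iInter₂] at h3
        exact h3 r'' h1

theorem N0_preconn {n : ℕ} {K K1 : Set (E n)} {v : E n} (h : Dat n K K1 v) :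
    IsPreconnected (N0 K v) := by
  
  have hne := h.Kne
  have hK := h.Kcomp
  obtain ⟨f1, hf1⟩ := h.exists_neg
  obtain ⟨R, hR0, hR⟩ := g_lip hK hne v
  have hf1ne : f1 ≠ 0 := by
    rintro rfl
    rw [g_zero hK hne v] at hf1
    exact lt_irrefl _ hf1
  obtain ⟨x, hx⟩ : ∃ x, f1 x ≠ 0 := by
    by_contra hcon
    push Not at hcon
    exact hf1ne (ContinuousLinearMap.ext hcon)
  set e : E n := (f1 x)⁻¹ • x with he
  have hfe : f1 e = 1 := by
    rw [he, map_smul, smul_eq_mul, inv_mul_cancel₀ hx]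
  set a : ℝ := - g K v f1 with ha
  have ha0 : 0 < a := by rw [ha]; linarith
  have hmono : ∀ (φ : E n →L[ℝ] ℝ) (s : ℝ), 0 ≤ s → g K v (φ + s • f1) ≤ g K v φ - s * a := by
    intro φ s hs
    have h1 := g_add hK hne v φ (s • f1)
    rw [g_smul hK hne v f1 hs] at h1
    rw [ha]; linarith
  have hex : ∀ φ : E n →L[ℝ] ℝ, ∃ t : ℝ, g K v (φ + t • f1) = 0 := by
    intro φ
    have hc : Continuous (fun t : ℝ => g K v (φ + t • f1)) :=
      (g_cont hK hne v).comp (by fun_prop)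
    set s0 : ℝ := |g K v φ| / a with hs0
    have hs0n : 0 ≤ s0 := by positivity
    have hs0a : s0 * a = |g K v φ| := div_mul_cancel₀ _ ha0.ne'
    have h1 : g K v (φ + s0 • f1) ≤ 0 := by
      have := hmono φ s0 hs0n
      rw [hs0a] at this
      linarith [le_abs_self (g K v φ)]
    have h2 : 0 ≤ g K v (φ + (-s0) • f1) := by
      have := hmono (φ + (-s0) • f1) s0 hs0n
      have e1 : φ + (-s0) • f1 + s0 • f1 = φ := by
        rw [add_assoc, ← add_smul]; simp
      rw [e1, hs0a] at this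
      linarith [neg_abs_le (g K v φ)]
    have h3 := intermediate_value_Icc' (show -s0 ≤ s0 by linarith) hc.continuousOn
    obtain ⟨t, -, ht⟩ := h3 ⟨h1, h2⟩
    exact ⟨t, ht⟩
  choose t ht using hex
  have hmono2 : ∀ (φ : E n →L[ℝ] ℝ) (t1 t2 : ℝ), t1 ≤ t2 →
      g K v (φ + t2 • f1) ≤ g K v (φ + t1 • f1) - (t2 - t1) * a := by
    intro φ t1 t2 h12
    have := hmono (φ + t1 • f1) (t2 - t1) (by linarith)
    have e1 : φ + t1 • f1 + (t2 - t1) • f1 = φ + t2 • f1 := by
      rw [add_assoc, ← add_smul]; congr 2; ring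
    rwa [e1] at this
  have huniq : ∀ (φ : E n →L[ℝ] ℝ) (s : ℝ), g K v (φ + s • f1) = 0 → s = t φ := by
    intro φ s hs
    rcases lt_trichotomy s (t φ) with h1 | h1 | h1
    · have := hmono2 φ s (t φ) h1.le
      rw [hs, ht] at this
      nlinarith
    · exact h1
    · have := hmono2 φ (t φ) s h1.le
      rw [hs, ht] at this
      nlinarith
  have hlip : ∀ φ ψ : E n →L[ℝ] ℝ, t ψ - t φ ≤ R / a * ‖ψ - φ‖ := by
    intro φ ψ
    rcases le_total (t ψ) (t φ) with h1 | h1
    · have : 0 ≤ R / a * ‖ψ - φ‖ := by positivity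
      linarith
    · have h2 := hmono2 ψ (t φ) (t ψ) h1
      rw [ht] at h2
      have h3 := hR (ψ + t φ • f1) (φ + t φ • f1)
      rw [ht, add_sub_add_right_eq_sub] at h3
      rw [div_mul_eq_mul_div, le_div_iff₀ ha0]
      linarith
  have hRa : 0 ≤ R / a := by positivity
  have htc : Continuous t := by
    refine LipschitzWith.continuous (K := ⟨R / a, hRa⟩) ?_
    refine LipschitzWith.of_dist_le_mul fun f1 f2 => ?_
    rw [Real.dist_eq, dist_eq_norm, abs_le]
    have h1 := hlip f2 f1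
    have h2 := hlip f1 f2
    rw [norm_sub_rev f2 f1] at h2
    constructor
    · show -(R / a * ‖f1 - f2‖) ≤ _
      linarith
    · show _ ≤ (R / a * ‖f1 - f2‖)
      linarith
  -- the hyperplane
  let ev : (E n →L[ℝ] ℝ) →ₗ[ℝ] ℝ :=
    { toFun := fun φ => φ e
      map_add' := fun φ ψ => by simp
      map_smul' := fun c φ => by simp }
  let W : Submodule ℝ (E n →L[ℝ] ℝ) := LinearMap.ker ev
  have hWmem : ∀ φ : E n →L[ℝ] ℝ, φ ∈ W ↔ φ e = 0 := fun φ => LinearMap.mem_ker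
  let L : (E n →ₗ[ℝ] ℝ) ≃ₗ[ℝ] (E n →L[ℝ] ℝ) := LinearMap.toContinuousLinearMap
  haveI hfd : FiniteDimensional ℝ (E n →L[ℝ] ℝ) := L.finiteDimensional
  have hrank : Module.finrank ℝ (E n →L[ℝ] ℝ) = n := by
    rw [← L.finrank_eq]
    have h1 : Module.finrank ℝ (Module.Dual ℝ (E n)) = Module.finrank ℝ (E n) :=
      Subspace.dual_finrank_eq
    have h2 : Module.finrank ℝ (E n) = n := finrank_euclideanSpace_fin
    exact h1.trans h2
  have hker : Module.finrank ℝ W ≥ 2 := by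
    have h1 := LinearMap.finrank_range_add_finrank_ker ev
    have h2 : Module.finrank ℝ (LinearMap.range ev) ≤ 1 := by
      have := Submodule.finrank_le (LinearMap.range ev)
      simpa using this
    rw [hrank] at h1
    have h3 := h.hn
    show 2 ≤ Module.finrank ℝ (LinearMap.ker ev)
    omega
  have hrk : 1 < Module.rank ℝ W := by
    have h1 : 1 < Module.finrank ℝ W := by omega
    have h2 := Module.lt_rank_of_lt_finrank h1
    simpa using h2
  have hconn : IsConnected ({(0 : W)}ᶜ : Set W) := isConnected_compl_singleton_of_one_lt_rank hrk 0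
  have hcont : Continuous (fun φ : W => (φ : E n →L[ℝ] ℝ) + t φ • f1) :=
    continuous_subtype_val.add ((htc.comp continuous_subtype_val).smul continuous_const)
  have hpre := hconn.isPreconnected.image _ hcont.continuousOn
  have himg : (fun φ : W => (φ : E n →L[ℝ] ℝ) + t φ • f1) '' ({(0 : W)}ᶜ : Set W) = N0 K v := by
    ext f
    constructor
    · rintro ⟨φ, hφ, rfl⟩
      have hφ0 : (φ : E n →L[ℝ] ℝ) e = 0 := (hWmem _).1 φ.2
      refine ⟨fun h0 => hφ ?_, ht _⟩
      have h1 : ((φ : E n →L[ℝ] ℝ) + t φ • f1) e = 0 := by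
        have h0' : (φ : E n →L[ℝ] ℝ) + t φ • f1 = 0 := h0
        rw [h0']; simp
      rw [ContinuousLinearMap.add_apply, ContinuousLinearMap.smul_apply, hφ0, hfe] at h1
      have h2 : t φ = 0 := by simpa using h1
      have h3 : (φ : E n →L[ℝ] ℝ) = 0 := by
        have h0' : (φ : E n →L[ℝ] ℝ) + t φ • f1 = 0 := h0
        rwa [h2, zero_smul, add_zero] at h0'
      exact Subtype.ext h3
    · rintro ⟨hf0, hfg⟩
      set φ : E n →L[ℝ] ℝ := f - (f e) • f1 with hφ
      have hφe : φ e = 0 := by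
        rw [hφ, ContinuousLinearMap.sub_apply, ContinuousLinearMap.smul_apply, hfe]
        simp
      have hff : φ + (f e) • f1 = f := by rw [hφ]; simp
      have ht' : f e = t φ := huniq φ (f e) (by rw [hff]; exact hfg)
      refine ⟨⟨φ, (hWmem _).2 hφe⟩, ?_, ?_⟩
      · intro h0
        have h1 : φ = 0 := congrArg Subtype.val h0
        rw [h1, zero_add] at hff
        have h2 : t 0 = 0 := (huniq 0 0 (by rw [zero_smul, add_zero]; exact g_zero hK hne v)).symm
        rw [h1, h2] at ht'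
        rw [ht', zero_smul] at hff
        exact hf0 hff.symm
      · show φ + t φ • f1 = f
        rw [← ht']; exact hff
  rw [himg] at hpre
  exact hpre

lemma nn_zero_of {n : ℕ} {K : Set (E n)} (hint : (interior K).Nonempty) (v : E n)
    (A : E n →L[ℝ] ℝ) (hA : ∀ x ∈ K, A (x - v) = 0) : A = 0 := by
  obtain ⟨x0, hx0⟩ := hint
  rw [mem_interior_iff_mem_nhds, Metric.mem_nhds_iff] at hx0
  obtain ⟨ε, hε, hball⟩ := hx0
  ext w
  by_cases hw : w = 0
  · simp [hw]
  · have hwn : 0 < ‖w‖ := norm_pos_iff.2 hw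
    obtain ⟨s, hs⟩ : ∃ s : ℝ, s = ε / (2 * ‖w‖) := ⟨_, rfl⟩
    have hs0 : 0 < s := by rw [hs]; positivity
    have h1 : x0 + s • w ∈ K := by
      apply hball
      rw [Metric.mem_ball, dist_eq_norm, add_sub_cancel_left, norm_smul, Real.norm_eq_abs,
        abs_of_pos hs0, hs]
      have : ε / (2 * ‖w‖) * ‖w‖ = ε / 2 := by
        field_simp
      rw [this]
      linarith
    have h2 := hA _ h1
    have h3 := hA _ (hball (Metric.mem_ball_self hε))
    have h4 : x0 + s • w - v = (x0 - v) + s • w := by abel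
    rw [h4, map_add, h3, map_smul, smul_eq_mul, zero_add] at h2
    rcases mul_eq_zero.1 h2 with h5 | h5
    · exact absurd h5 hs0.ne'
    · simpa using h5

lemma nn_ivt {n : ℕ} {K : Set (E n)} (hK : IsCompact K) (hne : K.Nonempty) (v : E n)
    (f1 : E n →L[ℝ] ℝ) (hf1 : g K v f1 < 0) (φ : E n →L[ℝ] ℝ) :
    ∃ t : ℝ, g K v (φ + t • f1) = 0 := by
  have hc : Continuous (fun t : ℝ => g K v (φ + t • f1)) :=
    (g_cont hK hne v).comp (by fun_prop)
  obtain ⟨T, hT⟩ : ∃ T : ℝ, T = |g K v φ| / (-g K v f1) := ⟨_, rfl⟩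
  have hT0 : 0 ≤ T := by
    rw [hT]
    exact div_nonneg (abs_nonneg _) (by linarith)
  have hTm : T * g K v f1 = -|g K v φ| := by
    rw [hT]
    have : g K v f1 ≠ 0 := hf1.ne
    field_simp
  have h1 : g K v (φ + T • f1) ≤ 0 := by
    have h2 := g_add hK hne v φ (T • f1)
    rw [g_smul hK hne v f1 hT0, hTm] at h2
    have := le_abs_self (g K v φ)
    linarith
  have h3 : 0 ≤ g K v (φ + (-T) • f1) := by
    have h4 := g_add hK hne v (φ + (-T) • f1) (T • f1)
    rw [g_smul hK hne v f1 hT0, hTm] at h4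
    have h5 : φ + (-T) • f1 + T • f1 = φ := by
      refine ContinuousLinearMap.ext fun w => ?_
      show φ w + (-T) * f1 w + T * f1 w = φ w
      ring
    rw [h5] at h4
    have := neg_abs_le (g K v φ)
    linarith
  obtain ⟨t, ht⟩ := mem_range_of_exists_le_of_exists_ge hc ⟨T, h1⟩ ⟨-T, h3⟩
  exact ⟨t, ht⟩

lemma nn_phi {n : ℕ} (hn : 3 ≤ n) (e : E n) : ∃ φ : E n →L[ℝ] ℝ, φ ≠ 0 ∧ φ e = 0 := by
  obtain ⟨i0, i1, h01⟩ : ∃ i0 i1 : Fin n, i0 ≠ i1 :=
    ⟨⟨0, by omega⟩, ⟨1, by omega⟩, by simp⟩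
  by_cases h0 : e i0 = 0
  · refine ⟨EuclideanSpace.proj i0, ?_, ?_⟩
    · intro hz
      have := congrArg (fun f : E n →L[ℝ] ℝ => f (EuclideanSpace.single i0 1)) hz
      simp at this
    · simpa using h0
  · refine ⟨e i0 • EuclideanSpace.proj i1 - e i1 • EuclideanSpace.proj i0, ?_, ?_⟩
    · intro hz
      have := congrArg (fun f : E n →L[ℝ] ℝ => f (EuclideanSpace.single i1 1)) hz
      simp [h01] at this
      exact h0 this
    · simp
      ring

theorem N0_nondeg {n : ℕ} {K K1 : Set (E n)} {v : E n} (h : Dat n K K1 v) (r : E n)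
    (hr : r ≠ 0) : ∃ f ∈ N0 K v, f r ≠ 0 := by
  by_contra hcon
  push Not at hcon
  obtain ⟨f1, hf1⟩ := h.exists_neg
  have hK := h.Kcomp
  have hne := h.Kne
  have hf10 : f1 ≠ 0 := by
    intro h0
    rw [h0, g_zero hK hne] at hf1
    exact lt_irrefl _ hf1
  obtain ⟨e, he⟩ : ∃ e : E n, f1 e = 1 := by
    obtain ⟨w, hw⟩ : ∃ w, f1 w ≠ 0 := by
      by_contra hall
      push Not at hall
      exact hf10 (ContinuousLinearMap.ext fun w => hall w)
    refine ⟨(f1 w)⁻¹ • w, ?_⟩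
    rw [map_smul, smul_eq_mul, inv_mul_cancel₀ hw]
  have key : ∀ φ : E n →L[ℝ] ℝ, φ ≠ 0 → φ e = 0 → f1 r = 0 ∧ φ r = 0 := by
    intro φ hφ hφe
    obtain ⟨t, ht⟩ := nn_ivt hK hne v f1 hf1 φ
    obtain ⟨t', ht'⟩ := nn_ivt hK hne v f1 hf1 (-φ)
    have hA0 : φ + t • f1 ≠ 0 := by
      intro hz
      have h1 := congrArg (fun f : E n →L[ℝ] ℝ => f e) hz
      simp [hφe, he] at h1
      rw [h1, zero_smul, add_zero] at hz
      exact hφ hz
    have hB0 : -φ + t' • f1 ≠ 0 := by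
      intro hz
      have h1 := congrArg (fun f : E n →L[ℝ] ℝ => f e) hz
      simp [hφe, he] at h1
      rw [h1, zero_smul, add_zero] at hz
      exact hφ (neg_eq_zero.1 hz)
    have hAr := hcon _ ⟨hA0, ht⟩
    have hBr := hcon _ ⟨hB0, ht'⟩
    have hAr' : φ r + t * f1 r = 0 := by simpa using hAr
    have hBr' : -φ r + t' * f1 r = 0 := by simpa using hBr
    have hsum : (t + t') * f1 r = 0 := by linarith
    have hf1r : f1 r = 0 := by
      rcases mul_eq_zero.1 hsum with h1 | h1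
      · exfalso
        have hBA : -φ + t' • f1 = -(φ + t • f1) := by
          have h2 : t' = -t := by linarith
          refine ContinuousLinearMap.ext fun w => ?_
          show -φ w + t' * f1 w = -(φ w + t * f1 w)
          rw [h2]
          ring
        rw [hBA] at ht'
        apply hA0
        refine nn_zero_of h.Kint v _ fun x hx => ?_
        have h3 := le_g hK v (φ + t • f1) hx
        have h4 := le_g hK v (-(φ + t • f1)) hx
        rw [ht] at h3
        rw [ht', ContinuousLinearMap.neg_apply] at h4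
        linarith
      · exact h1
    refine ⟨hf1r, ?_⟩
    rw [hf1r, mul_zero, add_zero] at hAr'
    exact hAr'
  obtain ⟨φ0, hφ0, hφ0e⟩ := nn_phi h.hn e
  have hf1r := (key φ0 hφ0 hφ0e).1
  have hall : ∀ ψ : E n →L[ℝ] ℝ, ψ r = 0 := by
    intro ψ
    by_cases hz : ψ - ψ e • f1 = 0
    · have h1 : ψ = ψ e • f1 := sub_eq_zero.1 hz
      rw [h1, ContinuousLinearMap.smul_apply, hf1r, smul_zero]
    · have h1 := (key (ψ - ψ e • f1) hz (by simp [he])).2
      have h2 : ψ r - ψ e * f1 r = 0 := by simpa using h1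
      rw [hf1r, mul_zero, sub_zero] at h2
      exact h2
  have h5 := hall (innerSL ℝ r)
  have h6 : (innerSL ℝ r) r = inner ℝ r r := rfl
  rw [h6, inner_self_eq_zero] at h5
  exact hr h5

lemma cen_closed_aux {n : ℕ} {K K1 : Set (E n)} {v : E n} (h : Dat n K K1 v)
    (u : ℕ → (E n →L[ℝ] ℝ)) (f : E n →L[ℝ] ℝ) (hf : f ≠ 0) (hu : Tendsto u atTop (𝓝 f))
    (p : ℕ → E n) (q : E n) (hp : Tendsto p atTop (𝓝 q)) (hcen : ∀ k, IsCen K K1 v (u k) (p k))
    (y : E n) (hy : y ∈ interior K1) (hfy : f (y - v) = g K v f) :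
    (2 : ℝ) • q - y ∈ Sec K K1 v f := by
  obtain ⟨w, hw⟩ : ∃ w, f w ≠ 0 := by
    by_contra hcon
    push Not at hcon
    exact hf (ContinuousLinearMap.ext hcon)
  obtain ⟨e, he⟩ : ∃ e, f e = 1 := ⟨(f w)⁻¹ • w, by rw [map_smul, smul_eq_mul, inv_mul_cancel₀ hw]⟩
  have t1 : ∀ z : E n, Tendsto (fun k => u k z) atTop (𝓝 (f z)) := fun z =>
    ((ContinuousLinearMap.apply ℝ ℝ z).continuous.tendsto f).comp hu
  have t2 : Tendsto (fun k => g K v (u k)) atTop (𝓝 (g K v f)) :=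
    ((g_cont h.Kcomp h.Kne v).tendsto f).comp hu
  have t3 : Tendsto (fun k => (g K v (u k) - u k (y - v)) / u k e) atTop (𝓝 0) := by
    have := (t2.sub (t1 (y - v))).div (t1 e) (by rw [he]; exact one_ne_zero)
    rw [hfy, sub_self, zero_div] at this
    exact this
  have t4 : Tendsto (fun k => y + ((g K v (u k) - u k (y - v)) / u k e) • e) atTop (𝓝 y) := by
    have := (t3.smul_const e).const_add y
    rw [zero_smul, add_zero] at this
    exact this
  have ev1 : ∀ᶠ k in atTop, y + ((g K v (u k) - u k (y - v)) / u k e) • e ∈ interior K1 :=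
    t4.eventually (isOpen_interior.mem_nhds hy)
  have ev2 : ∀ᶠ k in atTop, u k e ≠ 0 := by
    have := (t1 e).eventually (isOpen_ne.mem_nhds (show f e ≠ 0 by rw [he]; exact one_ne_zero))
    exact this
  have ev3 : ∀ᶠ k in atTop, (2 : ℝ) • p k - (y + ((g K v (u k) - u k (y - v)) / u k e) • e) ∈
      Sec K K1 v (u k) := by
    filter_upwards [ev1, ev2] with k h1 h2
    apply hcen k
    refine ⟨interior_subset h1, ?_⟩
    have e1 : y + ((g K v (u k) - u k (y - v)) / u k e) • e - v =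
        (y - v) + ((g K v (u k) - u k (y - v)) / u k e) • e := by abel
    rw [e1, map_add, map_smul, smul_eq_mul, div_mul_cancel₀ _ h2]
    ring
  have t5 : Tendsto (fun k => (2 : ℝ) • p k - (y + ((g K v (u k) - u k (y - v)) / u k e) • e))
      atTop (𝓝 ((2 : ℝ) • q - y)) := (hp.const_smul (2:ℝ)).sub t4
  refine ⟨h.K1comp.isClosed.mem_of_tendsto t5 (ev3.mono fun k hk => hk.1), ?_⟩
  have t6 : Tendsto (fun k => u k ((2 : ℝ) • p k - (y + ((g K v (u k) - u k (y - v)) / u k e) • e)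
      - v)) atTop (𝓝 (f ((2 : ℝ) • q - y - v))) :=
    ((isBoundedBilinearMap_apply (𝕜 := ℝ) (E := E n) (F := ℝ)).continuous.tendsto
      (f, (2 : ℝ) • q - y - v)).comp (hu.prodMk_nhds (t5.sub_const v))
  refine tendsto_nhds_unique t6 (t2.congr' ?_)
  filter_upwards [ev3] with k hk
  exact hk.2.symm

theorem cen_closed {n : ℕ} {K K1 : Set (E n)} {v : E n} (h : Dat n K K1 v)
    (u : ℕ → (E n →L[ℝ] ℝ)) (f : E n →L[ℝ] ℝ) (hf : f ≠ 0) (hu : Tendsto u atTop (𝓝 f))
    (p : ℕ → E n) (q : E n) (hp : Tendsto p atTop (𝓝 q)) (hcen : ∀ k, IsCen K K1 v (u k) (p k)) :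
    IsCen K K1 v f q := by
  intro x hx
  obtain ⟨z, hz, hzf⟩ := g_attain h.Kcomp h.Kne v f
  have hzi : z ∈ interior K1 := h.sub hz
  have hclosed : IsClosed {y : E n | (2 : ℝ) • q - y ∈ Sec K K1 v f} := by
    have h1 : IsClosed (Sec K K1 v f) := by
      have : Sec K K1 v f = K1 ∩ {x | f (x - v) = g K v f} := rfl
      rw [this]
      exact h.K1comp.isClosed.inter (isClosed_eq (by fun_prop) continuous_const)
    exact h1.preimage (by fun_prop)
  have ht : Tendsto (fun t : ℝ => (1 - t) • x + t • z) (𝓝[>] 0) (𝓝 x) := by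
    have hc : Continuous (fun t : ℝ => (1 - t) • x + t • z) := by fun_prop
    have := hc.tendsto 0
    simp only [sub_zero, one_smul, zero_smul, add_zero] at this
    exact this.mono_left nhdsWithin_le_nhds
  refine hclosed.mem_of_tendsto ht ?_
  have hlt : ∀ᶠ t : ℝ in 𝓝[>] 0, t < 1 :=
    (eventually_lt_nhds (show (0:ℝ) < 1 from one_pos)).filter_mono nhdsWithin_le_nhds
  filter_upwards [self_mem_nhdsWithin, hlt] with t ht0 ht1
  have ht0' : 0 < t := ht0
  refine cen_closed_aux h u f hf hu p q hp hcen _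
    (h.K1conv.combo_self_interior_mem_interior hx.1 hzi (by linarith) ht0' (by ring)) ?_
  have e1 : (1 - t) • x + t • z - v = (1 - t) • (x - v) + t • (z - v) := by module
  rw [e1, map_add, map_smul, map_smul, hx.2, hzf, smul_eq_mul, smul_eq_mul]
  ring

theorem cen_basic {n : ℕ} {K K1 : Set (E n)} {v : E n} (h : Dat n K K1 v)
    (f : E n →L[ℝ] ℝ) (p : E n) (hp : IsCen K K1 v f p) :
    p ∈ K1 ∧ (∀ q, IsCen K K1 v f q → q = p) ∧
      (∀ x ∈ (Sec K K1 v f).extremePoints ℝ, (2 : ℝ) • p - x ∈ (Sec K K1 v f).extremePoints ℝ) := by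
  obtain ⟨z, hz, hzf⟩ := g_attain h.Kcomp h.Kne v f
  have hzS : z ∈ Sec K K1 v f := ⟨interior_subset (h.sub hz), hzf⟩
  refine ⟨?_, ?_, ?_⟩
  · have h2 : (2 : ℝ) • p - z ∈ K1 := (hp z hzS).1
    have h3 := h.K1conv hzS.1 h2 (show (0 : ℝ) ≤ 1 / 2 by norm_num)
      (show (0 : ℝ) ≤ 1 / 2 by norm_num) (by norm_num)
    have h4 : (1 / 2 : ℝ) • z + (1 / 2 : ℝ) • ((2 : ℝ) • p - z) = p := by
      module
    rwa [h4] at h3
  · intro q hq
    by_contra hne
    have hw : q - p ≠ 0 := sub_ne_zero.mpr hne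
    have hind : ∀ m : ℕ, z + (m : ℝ) • ((2 : ℝ) • (q - p)) ∈ Sec K K1 v f := by
      intro m
      induction m with
      | zero => simpa using hzS
      | succ m ih =>
        have h5 := hq _ (hp _ ih)
        have h6 : (2 : ℝ) • q - ((2 : ℝ) • p - (z + (m : ℝ) • ((2 : ℝ) • (q - p)))) =
            z + ((m + 1 : ℕ) : ℝ) • ((2 : ℝ) • (q - p)) := by
          push_cast
          module
        rwa [h6] at h5
    obtain ⟨C, hC⟩ := h.K1comp.isBounded.exists_norm_le
    have hpos : 0 < ‖(2 : ℝ) • (q - p)‖ := by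
      rw [norm_pos_iff]
      exact smul_ne_zero two_ne_zero hw
    obtain ⟨m, hm⟩ := exists_nat_gt ((C + ‖z‖) / ‖(2 : ℝ) • (q - p)‖)
    rw [div_lt_iff₀ hpos] at hm
    have h7 := hC _ (hind m).1
    have h8 : ‖(m : ℝ) • ((2 : ℝ) • (q - p))‖ ≤ ‖z + (m : ℝ) • ((2 : ℝ) • (q - p))‖ + ‖z‖ := by
      have := norm_sub_le (z + (m : ℝ) • ((2 : ℝ) • (q - p))) z
      rwa [add_sub_cancel_left] at this
    rw [norm_smul, Real.norm_natCast] at h8
    linarith
  · intro x hx
    rw [mem_extremePoints] at hx ⊢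
    refine ⟨hp x hx.1, ?_⟩
    intro y hy y' hy' hseg
    have h9 : x ∈ openSegment ℝ ((2 : ℝ) • p - y) ((2 : ℝ) • p - y') := by
      obtain ⟨a, b, ha, hb, hab, he⟩ := hseg
      refine ⟨a, b, ha, hb, hab, ?_⟩
      have : a • ((2 : ℝ) • p - y) + b • ((2 : ℝ) • p - y') =
          (a + b) • ((2 : ℝ) • p) - (a • y + b • y') := by module
      rw [this, hab, he, one_smul]
      module
    have h10 := hx.2 _ (hp y hy) _ (hp y' hy') h9
    constructor
    · rw [← h10.1]; module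
    · rw [← h10.2]; module

lemma local_seq_u {n : ℕ} {K K1 : Set (E n)} {v : E n} (h : Dat n K K1 v)
    (f0 : E n →L[ℝ] ℝ) (hf0 : f0 ∈ N0 K v) (s : ℝ) (hs : s ≠ 0) :
    ∃ u : ℕ → (E n →L[ℝ] ℝ), Tendsto u atTop (𝓝 f0) ∧ ∀ k, 0 < g K v (u k) * s := by
  obtain ⟨f1, hf1⟩ := h.exists_neg
  have ht : Tendsto (fun k : ℕ => 1 / ((k : ℝ) + 1)) atTop (𝓝 0) :=
    tendsto_one_div_add_atTop_nhds_zero_nat
  have htp : ∀ k : ℕ, 0 < 1 / ((k : ℝ) + 1) := fun k => by positivity
  have ht1 : Tendsto (fun k : ℕ => (1 / ((k : ℝ) + 1)) • f1) atTop (𝓝 0) := by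
    have h3 := ht.smul_const f1
    rw [zero_smul] at h3
    exact h3
  have hneg : ∀ k : ℕ, g K v (f0 + (1 / ((k : ℝ) + 1)) • f1) < 0 := by
    intro k
    have h3 := g_add h.Kcomp h.Kne v f0 ((1 / ((k : ℝ) + 1)) • f1)
    rw [g_smul h.Kcomp h.Kne v f1 (htp k).le, hf0.2, zero_add] at h3
    exact lt_of_le_of_lt h3 (mul_neg_of_pos_of_neg (htp k) hf1)
  rcases lt_or_gt_of_ne hs with h3 | h3
  · refine ⟨fun k => f0 + (1 / ((k : ℝ) + 1)) • f1, ?_, fun k => ?_⟩
    · have h4 := ht1.const_add f0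
      rw [add_zero] at h4
      exact h4
    · exact mul_pos_of_neg_of_neg (hneg k) h3
  · refine ⟨fun k => f0 - (1 / ((k : ℝ) + 1)) • f1, ?_, fun k => ?_⟩
    · have h4 := ht1.const_sub f0
      rw [sub_zero] at h4
      exact h4
    · refine mul_pos ?_ h3
      have h5 := g_add h.Kcomp h.Kne v (f0 + (1 / ((k : ℝ) + 1)) • f1)
        (f0 - (1 / ((k : ℝ) + 1)) • f1)
      have h6 : (f0 + (1 / ((k : ℝ) + 1)) • f1) + (f0 - (1 / ((k : ℝ) + 1)) • f1) =
          (2 : ℝ) • f0 := by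
        rw [two_smul]
        abel
      rw [h6, g_smul h.Kcomp h.Kne v f0 zero_le_two, hf0.2, mul_zero] at h5
      have h7 := hneg k
      linarith

lemma local_seq_ext {n : ℕ} {K K1 : Set (E n)} {v q : E n} (hE : Edge K1 v q)
    (f : E n →L[ℝ] ℝ) (a : ℝ) (ha0 : 0 ≤ a) (ha1 : a ≤ 1) (hf : f (q - v) ≠ 0)
    (ha : a * f (q - v) = g K v f) : v + a • (q - v) ∈ (Sec K K1 v f).extremePoints ℝ := by
  obtain ⟨hq, hqv, hext⟩ := hE
  have hseg : v + a • (q - v) ∈ segment ℝ v q := by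
    rw [segment_eq_image']
    exact ⟨a, ⟨ha0, ha1⟩, rfl⟩
  have hval : f (v + a • (q - v) - v) = g K v f := by
    rw [add_sub_cancel_left, map_smul, smul_eq_mul, ha]
  have key : ∀ y ∈ Sec K K1 v f, y ∈ segment ℝ v q → y = v + a • (q - v) := by
    intro y hy hys
    rw [segment_eq_image'] at hys
    obtain ⟨s, _, rfl⟩ := hys
    have h1 : f (v + s • (q - v) - v) = g K v f := hy.2
    rw [add_sub_cancel_left, map_smul, smul_eq_mul, ← ha] at h1
    have h2 := mul_right_cancel₀ hf h1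
    rw [h2]
  refine mem_extremePoints.2 ⟨⟨hext.subset hseg, hval⟩, fun y hy z hz hx => ?_⟩
  have h1 : y ∈ segment ℝ v q := hext.2 hy.1 hz.1 hseg hx
  have h2 : z ∈ segment ℝ v q := hext.2 hz.1 hy.1 hseg (by rw [openSegment_symm]; exact hx)
  exact ⟨key y hy h1, key z hz h2⟩

lemma local_seq_par1 {n : ℕ} {K1 : Set (E n)} {v q1 q2 : E n} (hv : v ∈ K1)
    (h1 : q1 ∈ K1) (h2 : q2 ∈ K1.extremePoints ℝ) (hq2 : q2 ≠ v) (a b : ℝ) (ha : 0 < a)
    (hab : a < b) (he : a • (q1 - v) = b • (q2 - v)) : False := by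
  have hb : 0 < b := ha.trans hab
  have h3 : q2 = v + (a / b) • (q1 - v) := by
    have h4 : q2 - v = (a / b) • (q1 - v) := by
      rw [div_eq_inv_mul, mul_smul, he, smul_smul, inv_mul_cancel₀ hb.ne', one_smul]
    rw [← h4, add_sub_cancel]
  have h5 : q2 ∈ openSegment ℝ v q1 := by
    rw [openSegment_eq_image']
    exact ⟨a / b, ⟨div_pos ha hb, (div_lt_one hb).2 hab⟩, h3.symm⟩
  exact hq2 ((mem_extremePoints.1 h2).2 v hv q1 h1 h5).1.symm

lemma local_seq_par {n : ℕ} {K1 : Set (E n)} {v q1 q2 : E n} (hv : v ∈ K1)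
    (h1 : q1 ∈ K1.extremePoints ℝ) (hq1 : q1 ≠ v) (h2 : q2 ∈ K1.extremePoints ℝ) (hq2 : q2 ≠ v)
    (hq : q1 ≠ q2) (a b : ℝ) (ha : 0 < a) (hb : 0 < b) (he : a • (q1 - v) = b • (q2 - v)) :
    False := by
  rcases lt_trichotomy a b with hab | hab | hab
  · exact local_seq_par1 hv (mem_extremePoints.1 h1).1 h2 hq2 a b ha hab he
  · apply hq
    rw [hab] at he
    have h3 : q1 - v = q2 - v := by
      have h4 := congrArg (fun w => b⁻¹ • w) he
      beta_reduce at h4
      rw [smul_smul, smul_smul, inv_mul_cancel₀ hb.ne', one_smul, one_smul] at h4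
      exact h4
    exact sub_left_injective h3
  · exact local_seq_par1 hv (mem_extremePoints.1 h2).1 h1 hq1 b a hb hab he.symm

lemma local_seq_lam {n : ℕ} {K : Set (E n)} {v : E n} (hc : Continuous (g K v))
    (f0 : E n →L[ℝ] ℝ) (hf0 : g K v f0 = 0) (q : E n) (hs : f0 (q - v) ≠ 0)
    (u : ℕ → (E n →L[ℝ] ℝ)) (hu : Tendsto u atTop (𝓝 f0))
    (hsgn : ∀ k, 0 < g K v (u k) * f0 (q - v)) :
    Tendsto (fun k => g K v (u k) / u k (q - v)) atTop (𝓝 0) ∧
    ∀ᶠ k in atTop, u k (q - v) ≠ 0 ∧ 0 < g K v (u k) / u k (q - v) ∧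
      g K v (u k) / u k (q - v) < 1 := by
  have h1 : Tendsto (fun k => u k (q - v)) atTop (𝓝 (f0 (q - v))) := by
    have h2 : Continuous (fun f : E n →L[ℝ] ℝ => f (q - v)) := by fun_prop
    exact (h2.tendsto f0).comp hu
  have h2 : Tendsto (fun k => g K v (u k)) atTop (𝓝 0) := by
    have h3 := (hc.tendsto f0).comp hu
    rw [hf0] at h3
    exact h3
  have h3 : Tendsto (fun k => g K v (u k) / u k (q - v)) atTop (𝓝 0) := by
    have h4 := h2.div h1 hs
    rw [zero_div] at h4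
    exact h4
  have h5 : Tendsto (fun k => u k (q - v) * f0 (q - v)) atTop (𝓝 (f0 (q - v) * f0 (q - v))) :=
    h1.mul_const _
  have h6 : 0 < f0 (q - v) * f0 (q - v) := mul_self_pos.2 hs
  refine ⟨h3, ?_⟩
  filter_upwards [h5.eventually_const_lt h6, h3.eventually_lt_const (zero_lt_one (α := ℝ))]
    with k hk1 hk2
  have hne : u k (q - v) ≠ 0 := by
    intro h0
    rw [h0, zero_mul] at hk1
    exact lt_irrefl _ hk1
  refine ⟨hne, ?_, hk2⟩
  have h7 := mul_pos (hsgn k) hk1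
  have h8 : 0 < g K v (u k) * u k (q - v) := by
    by_contra hcon
    have h9 : g K v (u k) * u k (q - v) ≤ 0 := not_lt.1 hcon
    have h10 : g K v (u k) * f0 (q - v) * (u k (q - v) * f0 (q - v)) =
        (g K v (u k) * u k (q - v)) * (f0 (q - v) * f0 (q - v)) := by ring
    rw [h10] at h7
    have h11 := mul_nonpos_of_nonpos_of_nonneg h9 h6.le
    linarith
  have h12 : g K v (u k) / u k (q - v) =
      g K v (u k) * u k (q - v) / (u k (q - v) * u k (q - v)) := by
    field_simp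
  rw [h12]
  exact div_pos h8 (mul_self_pos.2 hne)

theorem local_seq {n : ℕ} {K K1 : Set (E n)} {v : E n} (h : Dat n K K1 v)
    (f0 : E n →L[ℝ] ℝ) (hf0 : f0 ∈ N0 K v) (q1 q2 : E n) (h1 : Edge K1 v q1) (h2 : Edge K1 v q2)
    (hq : q1 ≠ q2) (hs : 0 < f0 (q1 - v) * f0 (q2 - v)) :
    ∃ (u : ℕ → (E n →L[ℝ] ℝ)) (x y : ℕ → E n), Tendsto u atTop (𝓝 f0) ∧
      Tendsto x atTop (𝓝 v) ∧ Tendsto y atTop (𝓝 v) ∧ ∀ k, u k ≠ 0 ∧ x k ≠ y k ∧
        x k ∈ (Sec K K1 v (u k)).extremePoints ℝ ∧ y k ∈ (Sec K K1 v (u k)).extremePoints ℝ := by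
  have hs1 : f0 (q1 - v) ≠ 0 := by
    intro h0
    rw [h0, zero_mul] at hs
    exact lt_irrefl _ hs
  have hs2 : f0 (q2 - v) ≠ 0 := by
    intro h0
    rw [h0, mul_zero] at hs
    exact lt_irrefl _ hs
  obtain ⟨u, hu, hsg⟩ := local_seq_u h f0 hf0 (f0 (q1 - v)) hs1
  have hsg2 : ∀ k, 0 < g K v (u k) * f0 (q2 - v) := by
    intro k
    have h3 := mul_pos (hsg k) hs
    by_contra hcon
    have h4 : g K v (u k) * f0 (q2 - v) ≤ 0 := not_lt.1 hcon
    have h5 : g K v (u k) * f0 (q1 - v) * (f0 (q1 - v) * f0 (q2 - v)) =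
        (g K v (u k) * f0 (q2 - v)) * (f0 (q1 - v) * f0 (q1 - v)) := by ring
    rw [h5] at h3
    have h6 := mul_nonpos_of_nonpos_of_nonneg h4 (mul_self_nonneg (f0 (q1 - v)))
    linarith
  have hc := g_cont h.Kcomp h.Kne v
  obtain ⟨l1, e1⟩ := local_seq_lam hc f0 hf0.2 q1 hs1 u hu hsg
  obtain ⟨l2, e2⟩ := local_seq_lam hc f0 hf0.2 q2 hs2 u hu hsg2
  obtain ⟨M, hM⟩ := eventually_atTop.1 (e1.and e2)
  have hx : ∀ q : E n, Tendsto (fun k => g K v (u k) / u k (q - v)) atTop (𝓝 0) →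
      Tendsto (fun k => v + (g K v (u (k + M)) / u (k + M) (q - v)) • (q - v)) atTop (𝓝 v) := by
    intro q hl
    have h3 := ((hl.comp (tendsto_add_atTop_nat M)).smul_const (q - v)).const_add v
    rw [zero_smul, add_zero] at h3
    exact h3
  refine ⟨fun k => u (k + M), fun k => v + (g K v (u (k + M)) / u (k + M) (q1 - v)) • (q1 - v),
    fun k => v + (g K v (u (k + M)) / u (k + M) (q2 - v)) • (q2 - v),
    hu.comp (tendsto_add_atTop_nat M), hx q1 l1, hx q2 l2, fun k => ?_⟩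
  obtain ⟨⟨a1, a2, a3⟩, b1, b2, b3⟩ := hM (k + M) (by omega)
  refine ⟨?_, ?_, ?_, ?_⟩
  · intro h0
    apply a1
    change (u (k + M)) (q1 - v) = 0
    have h0' : u (k + M) = 0 := h0
    rw [h0', ContinuousLinearMap.zero_apply]
  · intro h0
    exact local_seq_par (mem_extremePoints.1 h.hv).1 h1.1 h1.2.1 h2.1 h2.2.1 hq _ _ a2 b2
      (add_left_cancel h0)
  · exact local_seq_ext h1 _ _ a2.le a3.le a1 (div_mul_cancel₀ _ a1)
  · exact local_seq_ext h2 _ _ b2.le b3.le b1 (div_mul_cancel₀ _ b1)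

private lemma local_vertex_seg_closed {n : ℕ} (a b : E n) : IsClosed (segment ℝ a b) := by
  rw [segment_eq_image']
  exact (isCompact_Icc.image (by fun_prop)).isClosed

/-- a point of `V` in an extreme segment is one of its ends -/
private lemma local_vertex_end {n : ℕ} (K1 : Set (E n)) {a c d : E n} (ha : a ∈ K1.extremePoints ℝ)
    (hc : c ∈ K1) (hd : d ∈ K1) (h : a ∈ segment ℝ c d) : a = c ∨ a = d := by
  have := (mem_extremePoints_iff_forall_segment.1 ha).2 c hc d hd h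
  rcases this with h | h
  · exact Or.inl h.symm
  · exact Or.inr h.symm

private lemma local_vertex_pigeon {α : Type*} {S : Set α} (hS : S.Finite) (P : α → ℕ → Prop)
    (h : ∃ᶠ k in atTop, ∃ q ∈ S, P q k) : ∃ q ∈ S, ∃ᶠ k in atTop, P q k := by
  by_contra hc
  push Not at hc
  apply h
  have h1 := (eventually_all_finite hS (l := (atTop : Filter ℕ)) (p := fun q k => ¬ P q k)).2 (fun q hq => by
    have := hc q hq
    simpa using this)
  filter_upwards [h1] with k hk
  rintro ⟨q, hq, hP⟩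
  exact hk q hq hP

private lemma local_vertex_edge {n : ℕ} {K K1 : Set (E n)} {v : E n} (h : Dat n K K1 v)
    (f : E n →L[ℝ] ℝ) (x : E n) (hx : x ∈ (Sec K K1 v f).extremePoints ℝ) (hx' : x ∉ K1.extremePoints ℝ) :
    ∃ a b : E n, a ∈ K1.extremePoints ℝ ∧ b ∈ K1.extremePoints ℝ ∧ a ≠ b ∧
      x ∈ openSegment ℝ a b ∧ IsExtreme ℝ K1 (segment ℝ a b) := by
  refine edge_lemma K1 h.K1conv h.K1comp f (g K v f + f v) x ?_ hx'
  have e : {y | y ∈ K1 ∧ f y = g K v f + f v} = Sec K K1 v f := by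
    ext y
    simp only [Sec, Set.mem_ofPred_eq, map_sub]
    constructor
    · rintro ⟨h1, h2⟩
      exact ⟨h1, by linarith⟩
    · rintro ⟨h1, h2⟩
      exact ⟨h1, by linarith⟩
  rw [e]
  exact hx

theorem local_vertex {n : ℕ} {K K1 : Set (E n)} {v : E n} (h : Dat n K K1 v)
    (f0 : E n →L[ℝ] ℝ) (hf0 : f0 ∈ N0 K v) (p0 : E n) (hp0 : IsCen K K1 v f0 p0)
    (u : ℕ → (E n →L[ℝ] ℝ)) (x y p : ℕ → E n) (hu : Tendsto u atTop (𝓝 f0))
    (hx : Tendsto x atTop (𝓝 v)) (hy : Tendsto y atTop (𝓝 v))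
    (hxy : ∀ k, x k ≠ y k ∧
        x k ∈ (Sec K K1 v (u k)).extremePoints ℝ ∧ y k ∈ (Sec K K1 v (u k)).extremePoints ℝ)
    (hp : ∀ k, IsCen K K1 v (u k) (p k)) :
    (2 : ℝ) • p0 - v ∈ K1.extremePoints ℝ := by
  by_contra hw
  set w := (2 : ℝ) • p0 - v with hwdef
  have hvK : v ∈ K1 := h.hv.1
  have hvS : v ∈ Sec K K1 v f0 := ⟨hvK, by rw [sub_self, map_zero]; exact hf0.2.symm⟩
  have hSK : Sec K K1 v f0 ⊆ K1 := fun z hz => hz.1
  have hvE : v ∈ (Sec K K1 v f0).extremePoints ℝ :=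
    inter_extremePoints_subset_extremePoints_of_subset hSK ⟨hvS, h.hv⟩
  have hwE : w ∈ (Sec K K1 v f0).extremePoints ℝ := (cen_basic h f0 p0 hp0).2.2 v hvE
  -- subsequence
  obtain ⟨ps, -, φ, hφ, hps⟩ := h.K1comp.tendsto_subseq (fun k => (cen_basic h (u k) (p k) (hp k)).1)
  have huφ : Tendsto (fun k => u (φ k)) atTop (𝓝 f0) := hu.comp hφ.tendsto_atTop
  have hcs : IsCen K K1 v f0 ps := cen_closed h (fun k => u (φ k)) f0 hf0.1 huφ (fun k => p (φ k)) ps hps
    (fun k => hp (φ k))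
  have hpp : ps = p0 := (cen_basic h f0 p0 hp0).2.1 ps hcs
  rw [hpp] at hps
  have hpφ : Tendsto (fun k => p (φ k)) atTop (𝓝 p0) := hps
  have hx' : Tendsto (fun k => (2 : ℝ) • p (φ k) - x (φ k)) atTop (𝓝 w) :=
    (hpφ.const_smul (2 : ℝ)).sub (hx.comp hφ.tendsto_atTop)
  have hy' : Tendsto (fun k => (2 : ℝ) • p (φ k) - y (φ k)) atTop (𝓝 w) :=
    (hpφ.const_smul (2 : ℝ)).sub (hy.comp hφ.tendsto_atTop)
  have hVo : IsOpen (K1.extremePoints ℝ)ᶜ := h.fin.isClosed.isOpen_compl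
  have ex := hx'.eventually (hVo.mem_nhds hw)
  have ey := hy'.eventually (hVo.mem_nhds hw)
  have hev : ∀ᶠ k in atTop, ∃ q ∈ (K1.extremePoints ℝ) ×ˢ ((K1.extremePoints ℝ) ×ˢ ((K1.extremePoints ℝ) ×ˢ (K1.extremePoints ℝ))),
      (q.1 ≠ q.2.1 ∧ q.2.2.1 ≠ q.2.2.2 ∧ IsExtreme ℝ K1 (segment ℝ q.1 q.2.1) ∧ IsExtreme ℝ K1 (segment ℝ q.2.2.1 q.2.2.2)) ∧
      ((2 : ℝ) • p (φ k) - x (φ k)) ∈ openSegment ℝ q.1 q.2.1 ∧
      ((2 : ℝ) • p (φ k) - y (φ k)) ∈ openSegment ℝ q.2.2.1 q.2.2.2 := by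
    filter_upwards [ex, ey] with k hxk hyk
    obtain ⟨a, b, ha, hb, hab, hxo, hexab⟩ := local_vertex_edge h (u (φ k)) _
      ((cen_basic h (u (φ k)) (p (φ k)) (hp (φ k))).2.2 _ (hxy (φ k)).2.1) hxk
    obtain ⟨c, d, hc, hd, hcd, hyo, hexcd⟩ := local_vertex_edge h (u (φ k)) _
      ((cen_basic h (u (φ k)) (p (φ k)) (hp (φ k))).2.2 _ (hxy (φ k)).2.2) hyk
    exact ⟨(a, b, c, d), ⟨ha, hb, hc, hd⟩, ⟨hab, hcd, hexab, hexcd⟩, hxo, hyo⟩
  obtain ⟨⟨a, b, c, d⟩, ⟨ha, hb, hc, hd⟩, hfr⟩ := local_vertex_pigeon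
    (h.fin.prod (h.fin.prod (h.fin.prod h.fin))) _ hev.frequently
  obtain ⟨k0, ⟨hab, hcd, hexab, hexcd⟩, -⟩ := hfr.exists
  simp only at ha hb hc hd hab hcd hexab hexcd
  have hfr' : ∃ᶠ k in atTop, ((2 : ℝ) • p (φ k) - x (φ k)) ∈ openSegment ℝ a b ∧
      ((2 : ℝ) • p (φ k) - y (φ k)) ∈ openSegment ℝ c d := hfr.mono fun k hk => hk.2
  have hwab : w ∈ segment ℝ a b := (local_vertex_seg_closed a b).mem_of_frequently_of_tendsto
    (hfr'.mono fun k hk => openSegment_subset_segment ℝ a b hk.1) hx'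
  have hwcd : w ∈ segment ℝ c d := (local_vertex_seg_closed c d).mem_of_frequently_of_tendsto
    (hfr'.mono fun k hk => openSegment_subset_segment ℝ c d hk.2) hy'
  have hwa : a ≠ w := fun e => hw (e ▸ ha)
  have hwb : b ≠ w := fun e => hw (e ▸ hb)
  have hwo : w ∈ openSegment ℝ a b := mem_openSegment_of_ne_left_right hwa hwb hwab
  have hacd : a ∈ segment ℝ c d := hexcd.left_mem_of_mem_openSegment ha.1 hb.1 hwcd hwo
  have hbcd : b ∈ segment ℝ c d := hexcd.left_mem_of_mem_openSegment hb.1 ha.1 hwcd (by rwa [openSegment_symm])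
  have hae := local_vertex_end K1 ha hc.1 hd.1 hacd
  have hbe := local_vertex_end K1 hb hc.1 hd.1 hbcd
  have hseg : openSegment ℝ c d = openSegment ℝ a b := by
    rcases hae with h1 | h1 <;> rcases hbe with h2 | h2
    · exact absurd (h1.trans h2.symm) hab
    · rw [h1, h2]
    · rw [h1, h2, openSegment_symm]
    · exact absurd (h1.trans h2.symm) hab
  -- the functional vanishes on `b - a`
  have hfr2 : ∃ᶠ k in atTop, u (φ k) (b - a) ∈ ({0} : Set ℝ) := by
    refine hfr'.mono fun k hk => ?_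
    obtain ⟨hk1, hk2⟩ := hk
    rw [hseg] at hk2
    rw [openSegment_eq_image'] at hk1 hk2
    obtain ⟨s, -, hs⟩ := hk1
    obtain ⟨t, -, ht⟩ := hk2
    simp only at hs ht
    have hX := ((cen_basic h (u (φ k)) (p (φ k)) (hp (φ k))).2.2 _ (hxy (φ k)).2.1).1.2
    have hY := ((cen_basic h (u (φ k)) (p (φ k)) (hp (φ k))).2.2 _ (hxy (φ k)).2.2).1.2
    rw [← hs] at hX
    rw [← ht] at hY
    have hst : s ≠ t := by
      intro e
      rw [e, ht] at hs
      exact (hxy (φ k)).1 (sub_right_injective hs).symm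
    have h3 : (s - t) * u (φ k) (b - a) = 0 := by
      simp only [map_sub, map_add, map_smul, smul_eq_mul] at hX hY ⊢
      linarith
    rcases mul_eq_zero.1 h3 with h4 | h4
    · exact absurd (sub_eq_zero.1 h4) hst
    · exact h4
  have hlim : Tendsto (fun k => u (φ k) (b - a)) atTop (𝓝 (f0 (b - a))) :=
    ((ContinuousLinearMap.apply ℝ ℝ (b - a)).continuous.tendsto f0).comp huφ
  have h0 : f0 (b - a) = 0 := isClosed_singleton.mem_of_frequently_of_tendsto hfr2 hlim
  have hwab' := hwab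
  rw [segment_eq_image'] at hwab'
  obtain ⟨s, -, hs⟩ := hwab'
  simp only at hs
  have hfa : f0 (a - v) = g K v f0 := by
    have h1 := hwE.1.2
    rw [← hs] at h1
    simp only [map_sub, map_add, map_smul, smul_eq_mul] at h1 h0 ⊢
    rw [h0, mul_zero, add_zero] at h1
    exact h1
  have hfb : f0 (b - v) = g K v f0 := by
    rw [← hfa]
    simp only [map_sub] at h0 ⊢
    linarith
  exact hwa (hwE.2 ⟨ha.1, hfa⟩ ⟨hb.1, hfb⟩ hwo)

lemma sec_v {n : ℕ} {K K1 : Set (E n)} {v : E n} (h : Dat n K K1 v) (f : E n →L[ℝ] ℝ)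
    (hf : f ∈ N0 K v) : v ∈ Sec K K1 v f := by
  refine ⟨extremePoints_subset h.hv, ?_⟩
  rw [sub_self, map_zero]
  exact hf.2.symm

lemma gen_step {n : ℕ} {K K1 : Set (E n)} {v : E n} (h : Dat n K K1 v)
    (p : (E n →L[ℝ] ℝ) → E n) (hp : ∀ f, f ≠ 0 → IsCen K K1 v f (p f))
    (f0 : E n →L[ℝ] ℝ) (hf0 : f0 ∈ N0 K v) (hne : ∀ q, Edge K1 v q → f0 (q - v) ≠ 0) :
    (2 : ℝ) • p f0 - v ∈ K1.extremePoints ℝ := by
  obtain ⟨q1, hq1, -, -⟩ := three_edges h v v
  obtain ⟨q2, hq2, hq21, -⟩ := three_edges h q1 q1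
  obtain ⟨q3, hq3, hq31, hq32⟩ := three_edges h q1 q2
  have key : ∃ a b, Edge K1 v a ∧ Edge K1 v b ∧ a ≠ b ∧ 0 < f0 (a - v) * f0 (b - v) := by
    rcases lt_or_gt_of_ne (hne q1 hq1) with h1 | h1
    · rcases lt_or_gt_of_ne (hne q2 hq2) with h2 | h2
      · exact ⟨q1, q2, hq1, hq2, hq21.symm, mul_pos_of_neg_of_neg h1 h2⟩
      · rcases lt_or_gt_of_ne (hne q3 hq3) with h3 | h3
        · exact ⟨q1, q3, hq1, hq3, hq31.symm, mul_pos_of_neg_of_neg h1 h3⟩
        · exact ⟨q2, q3, hq2, hq3, hq32.symm, mul_pos h2 h3⟩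
    · rcases lt_or_gt_of_ne (hne q2 hq2) with h2 | h2
      · rcases lt_or_gt_of_ne (hne q3 hq3) with h3 | h3
        · exact ⟨q2, q3, hq2, hq3, hq32.symm, mul_pos_of_neg_of_neg h2 h3⟩
        · exact ⟨q1, q3, hq1, hq3, hq31.symm, mul_pos h1 h3⟩
      · exact ⟨q1, q2, hq1, hq2, hq21.symm, mul_pos h1 h2⟩
  obtain ⟨a, b, ha, hb, hab, hpos⟩ := key
  obtain ⟨u, x, y, hu, hx, hy, hxy⟩ := local_seq h f0 hf0 a b ha hb hab hpos
  exact local_vertex h f0 hf0 (p f0) (hp f0 hf0.1) u x y (fun k => p (u k)) hu hx hy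
    (fun k => (hxy k).2) (fun k => hp (u k) (hxy k).1)

/-- the functionals in `N0` for which the midpoint of `v` and `q` is the centre of the section -/
def S {n : ℕ} (K K1 : Set (E n)) (v q : E n) : Set (N0 K v) :=
  {f | IsCen K K1 v f.1 ((1 / 2 : ℝ) • (v + q))}

lemma S_closed {n : ℕ} {K K1 : Set (E n)} {v : E n} (h : Dat n K K1 v) (q : E n) :
    IsClosed (S K K1 v q) := by
  refine IsSeqClosed.isClosed fun u f hu hf => ?_
  exact cen_closed h (fun k => (u k).1) f.1 f.2.1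
    ((continuous_subtype_val.tendsto f).comp hf) (fun _ => (1 / 2 : ℝ) • (v + q)) _
    tendsto_const_nhds hu

lemma half_two {n : ℕ} (p v : E n) : (1 / 2 : ℝ) • (v + ((2 : ℝ) • p - v)) = p := by
  rw [add_sub_cancel, smul_smul]; norm_num

lemma S_cover {n : ℕ} {K K1 : Set (E n)} {v : E n} (h : Dat n K K1 v)
    (p : (E n →L[ℝ] ℝ) → E n) (hp : ∀ f, f ≠ 0 → IsCen K K1 v f (p f)) :
    ∀ f : N0 K v, ∃ q ∈ K1.extremePoints ℝ, f ∈ S K K1 v q := by
  have hcl : IsClosed (⋃ q ∈ K1.extremePoints ℝ, S K K1 v q) :=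
    h.fin.isClosed_biUnion fun q _ => S_closed h q
  intro f
  suffices hmem : f ∈ ⋃ q ∈ K1.extremePoints ℝ, S K K1 v q by
    simpa using hmem
  rw [← hcl.closure_eq, Metric.mem_closure_iff]
  intro ε hε
  have hRfin : ((fun q => q - v) '' {q | Edge K1 v q}).Finite :=
    (h.fin.subset fun q hq => hq.1).image _
  obtain ⟨f', hf', hd, hne⟩ := dense_step h ((fun q => q - v) '' {q | Edge K1 v q}) hRfin
    (by rintro _ ⟨q, hq, rfl⟩; exact sub_ne_zero.2 hq.2.1)
    (by rintro _ ⟨q, hq, rfl⟩; exact edge_neg h q hq) f.1 f.2 ε hε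
  refine ⟨⟨f', hf'⟩, ?_, ?_⟩
  · refine Set.mem_iUnion₂.2 ⟨(2 : ℝ) • p f' - v,
      gen_step h p hp f' hf' fun q hq => hne _ ⟨q, hq, rfl⟩, ?_⟩
    show IsCen K K1 v f' _
    rw [half_two]
    exact hp f' hf'.1
  · rw [Subtype.dist_eq, dist_comm, dist_eq_norm]
    exact hd

theorem no_dat {n : ℕ} {K K1 : Set (E n)} {v : E n} (h : Dat n K K1 v)
    (hc : ∀ f : E n →L[ℝ] ℝ, f ≠ 0 → ∃ p, IsCen K K1 v f p) : False := by
  classical
  choose! p hp using hc
  have hcov := S_cover h p hp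
  obtain ⟨q1, hq1, -, -⟩ := three_edges h v v
  obtain ⟨f0, hf0, -⟩ := N0_nondeg h (q1 - v) (sub_ne_zero.2 hq1.2.1)
  obtain ⟨q0, hq0, hfq0⟩ := hcov ⟨f0, hf0⟩
  have : PreconnectedSpace (N0 K v) := isPreconnected_iff_preconnectedSpace.1 (N0_preconn h)
  have hcompl : (S K K1 v q0)ᶜ = ⋃ q ∈ K1.extremePoints ℝ \ {q0}, S K K1 v q := by
    ext f
    constructor
    · intro hf
      obtain ⟨q, hq, hfq⟩ := hcov f
      refine Set.mem_iUnion₂.2 ⟨q, ⟨hq, ?_⟩, hfq⟩
      rintro rfl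
      exact hf hfq
    · intro hf hf'
      obtain ⟨q, ⟨hq, hqq⟩, hfq⟩ := Set.mem_iUnion₂.1 hf
      have he := (cen_basic h f.1 _ hf').2.1 _ hfq
      apply hqq
      have h2 := smul_right_injective (E n) (show (1 / 2 : ℝ) ≠ 0 by norm_num) he
      exact add_left_cancel h2
  have hclopen : IsClopen (S K K1 v q0) := by
    refine ⟨S_closed h q0, ?_⟩
    rw [← isClosed_compl_iff, hcompl]
    exact (h.fin.subset Set.sdiff_subset).isClosed_biUnion fun q _ => S_closed h q
  have huniv : S K K1 v q0 = Set.univ := by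
    rcases isClopen_iff.1 hclopen with h1 | h1
    · exfalso
      rw [h1] at hfq0
      exact hfq0
    · exact h1
  have hmid : (2 : ℝ) • ((1 / 2 : ℝ) • (v + q0)) - v = q0 := by
    rw [smul_smul]; norm_num
  have hq0v : q0 = v := by
    by_contra hne
    obtain ⟨f, hf, hfne⟩ := N0_nondeg h (q0 - v) (sub_ne_zero.2 hne)
    have h1 : (⟨f, hf⟩ : N0 K v) ∈ S K K1 v q0 := by rw [huniv]; trivial
    have h2 := h1 v (sec_v h f hf)
    rw [hmid] at h2
    apply hfne
    rw [h2.2]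
    exact hf.2
  subst hq0v
  obtain ⟨z, hz, hze⟩ := g_attain h.Kcomp h.Kne q0 f0
  have hzK1 : z ∈ K1 := interior_subset (h.sub hz)
  have h3 := (hfq0 z ⟨hzK1, hze⟩).1
  have h4 : (2 : ℝ) • ((1 / 2 : ℝ) • (q0 + q0)) - z = (2 : ℝ) • q0 - z := by
    rw [smul_smul, ← two_smul ℝ q0]; norm_num
  rw [h4] at h3
  have hopen : q0 ∈ openSegment ℝ z ((2 : ℝ) • q0 - z) := by
    refine ⟨1 / 2, 1 / 2, by norm_num, by norm_num, by norm_num, ?_⟩
    module
  have hzq : z = q0 := h.hv.2 hzK1 h3 hopen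
  exact h.v_notMem (hzq ▸ hz)

/-- **The polytope case of the Barker–Larman conjecture.** -/
theorem polytope_case (n : ℕ) (hn : 3 ≤ n) (K K1 : Set (EuclideanSpace ℝ (Fin n)))
    (hK : Convex ℝ K) (hKc : IsCompact K) (hKi : (interior K).Nonempty)
    (F : Set (EuclideanSpace ℝ (Fin n))) (hF : F.Finite) (hK1 : K1 = convexHull ℝ F)
    (hsub : K ⊆ interior K1) :
    ¬ (∀ (f : EuclideanSpace ℝ (Fin n) →L[ℝ] ℝ) (c : ℝ), f ≠ 0 →
        (∀ x ∈ K, f x ≤ c) → (∃ x ∈ K, f x = c) →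
        ∃ p : EuclideanSpace ℝ (Fin n), ∀ x ∈ K1, f x = c →
          ((2 : ℝ) • p - x ∈ K1 ∧ f ((2 : ℝ) • p - x) = c)) := by
  intro Hsym
  have hKne : K.Nonempty := hKi.mono interior_subset
  have hK1c : IsCompact K1 := hK1 ▸ hF.isCompact_convexHull ℝ
  have hK1v : Convex ℝ K1 := hK1 ▸ convex_convexHull ℝ F
  have hK1i : (interior K1).Nonempty := hKne.mono hsub
  obtain ⟨v, hv⟩ := hK1c.extremePoints_nonempty (hK1i.mono interior_subset)
  have hfin : (K1.extremePoints ℝ).Finite := by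
    rw [hK1]
    exact hF.subset extremePoints_convexHull_subset
  have hD : Dat n K K1 v := ⟨hn, hK, hKc, hKi, hK1v, hK1c, hK1i, hfin, hsub, hv⟩
  refine no_dat hD fun f hf => ?_
  obtain ⟨p, hp⟩ := Hsym f (g K v f + f v) hf
    (fun x hx => by
      have := le_g hKc v f hx
      rw [map_sub] at this
      linarith)
    (by
      obtain ⟨x, hx, hxe⟩ := g_attain hKc hKne v f
      refine ⟨x, hx, ?_⟩
      rw [map_sub] at hxe
      linarith)
  refine ⟨p, fun x hx => ?_⟩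
  have h1 : f x = g K v f + f v := by
    have := hx.2
    rw [map_sub] at this
    linarith
  obtain ⟨h2, h3⟩ := hp x hx.1 h1
  refine ⟨h2, ?_⟩
  rw [map_sub, h3]
  ring

end Pool.Agent.BarkerLarman
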